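import Mathlib

/-!
# Alternative rings
-/

set_option autoImplicit false

namespace Pool.Agent.H.MP_41922c_al

section

variable {B : Type*} [NonUnitalNonAssocRing B]

theorem assoc_add₁ (x y z w : B) : associator (x + y) z w = associator x z w + associator y z w := by
  simp only [associator, add_mul]; abel

theorem assoc_add₂ (x y z w : B) : associator x (y + z) w = associator x y w + associator x z w := by
  simp only [associator, add_mul, mul_add]; abel

theorem assoc_add₃ (x y z w : B) : associator x y (z + w) = associator x y z + associator x y w := by
  simp only [associator, mul_add]; abel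

theorem assoc_sub₁ (x y z w : B) : associator (x - y) z w = associator x z w - associator y z w := by
  simp only [associator, sub_mul]; abel

theorem assoc_sub₂ (x y z w : B) : associator x (y - z) w = associator x y w - associator x z w := by
  simp only [associator, sub_mul, mul_sub]; abel

theorem assoc_sub₃ (x y z w : B) : associator x y (z - w) = associator x y z - associator x y w := by
  simp only [associator, mul_sub]; abel

/-- The alternative laws. -/
structure IsAlt (B : Type*) [NonUnitalNonAssocRing B] : Prop where
  left : ∀ x y : B, associator x x y = 0
  right : ∀ x y : B, associator y x x = 0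

namespace IsAlt

variable (H : IsAlt B)

include H

theorem swap12 (x y z : B) : associator x y z = -associator y x z := by
  have h := H.left (x + y) z
  rw [assoc_add₁, assoc_add₂, assoc_add₂, H.left, H.left, zero_add, add_zero] at h
  exact eq_neg_of_add_eq_zero_left h

theorem swap23 (x y z : B) : associator x y z = -associator x z y := by
  have h := H.right (y + z) x
  rw [assoc_add₂, assoc_add₃, assoc_add₃, H.right, H.right, zero_add, add_zero] at h
  exact eq_neg_of_add_eq_zero_left h

theorem swap13 (x y z : B) : associator x y z = -associator z y x := by
  rw [H.swap12 x y z, H.swap23 y x z, H.swap12 y z x, neg_neg]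

theorem cyc (x y z : B) : associator x y z = associator y z x := by
  rw [H.swap12 x y z, H.swap23 y x z, neg_neg]

theorem flex (x y : B) : associator x y x = 0 := by
  rw [H.swap23, H.left, neg_zero]

/-- `(x, y x, z) = x (x, y, z)` -/
theorem assoc_mul_self (x y z : B) : associator x (y * x) z = x * associator x y z := by
  have h1 := associator_cocycle x x y z
  have h3 := associator_cocycle y x x z
  have h1' := associator_cocycle x x z y
  rw [H.left x y, zero_mul, add_zero, H.left x (y * z), sub_zero] at h1
  rw [H.left x z, mul_zero, H.right x y, zero_mul, add_zero, zero_sub] at h3
  rw [H.left x z, zero_mul, add_zero, H.left x (z * y), sub_zero] at h1'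
  -- h1 : x * (x,y,z) - (xx,y,z) + (x,xy,z) = 0
  -- h3 : -(yx,x,z) + (y,xx,z) - (y,x,xz) = 0
  -- h1' : x * (x,z,y) - (xx,z,y) + (x,xz,y) = 0
  have e1 : associator (y * x) x z = -associator x (y * x) z := H.swap12 _ _ _
  have e2 : associator y (x * x) z = -associator (x * x) y z := H.swap12 _ _ _
  have e3 : associator y x (x * z) = associator x (x * z) y := H.cyc _ _ _
  have e4 : associator x z y = -associator x y z := H.swap23 _ _ _
  have e5 : associator (x * x) z y = -associator (x * x) y z := H.swap23 _ _ _
  rw [e1, e2, e3] at h3
  rw [e4, e5] at h1'
  rw [mul_neg] at h1'
  have h6 : associator x (y * x) z - x * associator x y z =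
      (- -associator x (y * x) z + -associator (x * x) y z - associator x (x * z) y) +
      (-(x * associator x y z) - -associator (x * x) y z + associator x (x * z) y) := by abel
  rw [h3, h1', add_zero] at h6
  exact sub_eq_zero.1 h6

/-- `(x, x y, z) = (x, y, z) x` -/
theorem assoc_self_mul (x y z : B) : associator x (x * y) z = associator x y z * x := by
  have h1 := associator_cocycle x x y z
  have h2 := associator_cocycle z y x x
  rw [H.left x y, zero_mul, add_zero, H.left x (y * z), sub_zero] at h1
  rw [H.right x y, mul_zero, H.right x (z * y), sub_zero, zero_add] at h2
  -- h2 : (z,yx,x) - (z,y,xx) + (z,y,x) x = 0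
  have e1 : associator z (y * x) x = -(x * associator x y z) := by
    rw [H.swap13, H.assoc_mul_self]
  have e2 : associator z y (x * x) = -associator (x * x) y z := H.swap13 _ _ _
  have e3 : associator z y x = -associator x y z := H.swap13 _ _ _
  rw [e1, e2, e3, neg_mul] at h2
  have h6 : associator x (x * y) z - associator x y z * x =
      (x * associator x y z - associator (x * x) y z + associator x (x * y) z) +
      (-(x * associator x y z) - -associator (x * x) y z + -(associator x y z * x)) := by abel
  rw [h1, h2, add_zero] at h6
  exact sub_eq_zero.1 h6

/-- `(x x, y, z) = x (x, y, z) + (x, y, z) x` -/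
theorem assoc_sq (x y z : B) :
    associator (x * x) y z = x * associator x y z + associator x y z * x := by
  have h1 := associator_cocycle x x y z
  rw [H.left x y, zero_mul, add_zero, H.left x (y * z), sub_zero, H.assoc_self_mul] at h1
  have h6 : x * associator x y z + associator x y z * x - associator (x * x) y z =
      x * associator x y z - associator (x * x) y z + associator x y z * x := by abel
  rw [h1] at h6
  exact (sub_eq_zero.1 h6).symm

/-- The middle Moufang identity. -/
theorem moufang (x y z : B) : (x * y) * (z * x) = x * ((y * z) * x) := by
  have h1 : associator x y (z * x) = x * associator x y z := by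
    rw [H.swap23, H.assoc_mul_self, H.swap23 x z y, mul_neg, neg_neg]
  have h2 : associator y z x = associator x y z := (H.cyc x y z).symm
  have h3 : (x * y) * (z * x) = associator x y (z * x) + x * (y * (z * x)) := by
    simp [associator]
  have h4 : y * (z * x) = (y * z) * x - associator y z x := by simp [associator]
  rw [h3, h1, h4, h2, mul_sub]
  abel

theorem left' (x y : B) : x * (x * y) = (x * x) * y := by
  have := H.left x y
  rw [associator, sub_eq_zero] at this
  exact this.symm

theorem right' (x y : B) : (y * x) * x = y * (x * x) := by
  have := H.right x y
  rw [associator, sub_eq_zero] at this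
  exact this

theorem flex' (x y : B) : (x * y) * x = x * (y * x) := by
  have := H.flex x y
  rw [associator, sub_eq_zero] at this
  exact this

end IsAlt

end

end Pool.Agent.H.MP_41922c_al
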