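import Mathlib

/-!
# The centre of a nonassociative ring as a commutative ring of scalars
-/

set_option autoImplicit false
set_option linter.unusedSectionVars false

namespace Pool.Agent.H.MP_41922c_al

/-- The centre. -/
@[ext] structure Cen (B : Type*) [NonAssocRing B] where
  /-- the element -/
  val : B
  prop : val ∈ Set.center B

namespace Cen

variable {B : Type*} [NonAssocRing B]

instance : Zero (Cen B) := ⟨⟨0, Set.zero_mem_center⟩⟩
instance : One (Cen B) := ⟨⟨1, Set.one_mem_center⟩⟩
instance : Add (Cen B) := ⟨fun x y => ⟨x.1 + y.1, Set.add_mem_center x.2 y.2⟩⟩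
instance : Mul (Cen B) := ⟨fun x y => ⟨x.1 * y.1, Set.mul_mem_center x.2 y.2⟩⟩
instance : Neg (Cen B) := ⟨fun x => ⟨-x.1, Set.neg_mem_center x.2⟩⟩

@[simp] theorem zero_val : (0 : Cen B).val = 0 := rfl
@[simp] theorem one_val : (1 : Cen B).val = 1 := rfl
@[simp] theorem add_val (x y : Cen B) : (x + y).val = x.val + y.val := rfl
@[simp] theorem mul_val (x y : Cen B) : (x * y).val = x.val * y.val := rfl
@[simp] theorem neg_val (x : Cen B) : (-x).val = -x.val := rfl

theorem assoc (z : Cen B) (x y : B) : z.val * (x * y) = (z.val * x) * y := z.2.left_assoc x y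

theorem comm (z : Cen B) (x : B) : z.val * x = x * z.val := z.2.comm x

theorem left_comm (z : Cen B) (x y : B) : z.val * (x * y) = x * (z.val * y) := by
  rw [z.assoc, z.comm x, z.2.mid_assoc]

instance : CommRing (Cen B) where
  add_assoc x y z := by ext; simp [add_assoc]
  zero_add x := by ext; simp
  add_zero x := by ext; simp
  add_comm x y := by ext; simp [add_comm]
  nsmul := nsmulRec
  zsmul := zsmulRec
  neg_add_cancel x := by ext; simp
  left_distrib x y z := by ext; simp [mul_add]
  right_distrib x y z := by ext; simp [add_mul]
  zero_mul x := by ext; simp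
  mul_zero x := by ext; simp
  mul_assoc x y z := by ext; simp only [mul_val]; rw [x.assoc]
  one_mul x := by ext; simp
  mul_one x := by ext; simp
  mul_comm x y := by ext; simp only [mul_val]; rw [x.comm]

instance : Module (Cen B) B where
  smul z x := z.val * x
  one_smul x := one_mul x
  mul_smul z w x := by
    show (z.val * w.val) * x = z.val * (w.val * x)
    rw [z.assoc]
  smul_zero z := mul_zero _
  smul_add z x y := mul_add _ _ _
  add_smul z w x := add_mul _ _ _
  zero_smul x := zero_mul _

theorem smul_def (z : Cen B) (x : B) : z • x = z.val * x := rfl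

@[simp] theorem smul_one' (z : Cen B) : z • (1 : B) = z.val := mul_one _

instance : IsScalarTower (Cen B) B B where
  smul_assoc z x y := (z.assoc x y).symm

instance : SMulCommClass (Cen B) B B where
  smul_comm z x y := z.left_comm x y

theorem sub_val (x y : Cen B) : (x - y).val = x.val - y.val := by
  rw [sub_eq_add_neg, sub_eq_add_neg, add_val, neg_val]

section algebra

variable {F : Type*} [CommRing F] [Module F B] [IsScalarTower F B B] [SMulCommClass F B B]

theorem smul_mem (k : F) : k • (1 : B) ∈ Set.center B where
  comm a := by
    show (k • (1 : B)) * a = a * (k • (1 : B))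
    rw [smul_mul_assoc, mul_smul_comm, one_mul, mul_one]
  left_assoc a b := by rw [smul_mul_assoc, smul_mul_assoc, smul_mul_assoc, one_mul, one_mul]
  right_assoc a b := by rw [mul_smul_comm, mul_smul_comm, mul_smul_comm, mul_one, mul_one]

instance : Algebra F (Cen B) :=
  RingHom.toAlgebra
    { toFun := fun k => ⟨k • (1 : B), smul_mem k⟩
      map_one' := by ext; simp
      map_mul' := fun x y => by
        ext
        simp only [mul_val]
        rw [smul_mul_assoc, one_mul, smul_smul]
      map_zero' := by ext; simp
      map_add' := fun x y => by ext; simp [add_smul] }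

theorem algebraMap_val (k : F) : (algebraMap F (Cen B) k).val = k • (1 : B) := rfl

theorem algebraMap_smul' (k : F) (x : B) : algebraMap F (Cen B) k • x = k • x := by
  rw [smul_def, algebraMap_val, smul_mul_assoc, one_mul]

end algebra

end Cen

end Pool.Agent.H.MP_41922c_al
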