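import Mathlib

/-!
# Octonion algebras over commutative rings

The Cayley-Dickson process in three steps: `E = K[w]`, `w² = w - ν`; `Q = E + E j`, `j² = β`;
`O = Q + Q l`, `l² = γ`.
-/

set_option autoImplicit false
set_option linter.unusedSectionVars false

namespace Pool.Agent.H.MP_41922c_al

/-- `E = K + K w`, `w² = w - ν`; the pair `(a, b)` is `a + b w`. -/
def QE (K : Type*) (_ : K) : Type _ := K × K

/-- `Q = E + E j`, `j² = β`; the pair `(x, y)` is `x + y j`. -/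
def QQ (K : Type*) (ν _ : K) : Type _ := QE K ν × QE K ν

/-- `O = Q + Q l`, `l² = γ`; the pair `(p, q)` is `p + q l`. -/
def Oct (K : Type*) (ν β _ : K) : Type _ := QQ K ν β × QQ K ν β

namespace QE

variable {K : Type*} [CommRing K] {ν : K}

instance : AddCommGroup (QE K ν) := inferInstanceAs (AddCommGroup (K × K))

instance {R : Type*} [Semiring R] [Module R K] : Module R (QE K ν) :=
  inferInstanceAs (Module R (K × K))

/-- conjugation: `w ↦ 1 - w` -/
def bar (x : QE K ν) : QE K ν := (x.1 + x.2, -x.2)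

instance : Mul (QE K ν) :=
  ⟨fun x y => (x.1 * y.1 - ν * (x.2 * y.2), x.1 * y.2 + x.2 * y.1 + x.2 * y.2)⟩

@[ext] theorem ext {x y : QE K ν} (h1 : x.1 = y.1) (h2 : x.2 = y.2) : x = y := Prod.ext h1 h2

@[simp] theorem zero_1 : (0 : QE K ν).1 = 0 := rfl
@[simp] theorem zero_2 : (0 : QE K ν).2 = 0 := rfl
@[simp] theorem add_1 (x y : QE K ν) : (x + y).1 = x.1 + y.1 := rfl
@[simp] theorem add_2 (x y : QE K ν) : (x + y).2 = x.2 + y.2 := rfl
@[simp] theorem neg_1 (x : QE K ν) : (-x).1 = -x.1 := rfl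
@[simp] theorem neg_2 (x : QE K ν) : (-x).2 = -x.2 := rfl
@[simp] theorem sub_1 (x y : QE K ν) : (x - y).1 = x.1 - y.1 := rfl
@[simp] theorem sub_2 (x y : QE K ν) : (x - y).2 = x.2 - y.2 := rfl
@[simp] theorem smul_1 {R : Type*} [Semiring R] [Module R K] (k : R) (x : QE K ν) :
    (k • x).1 = k • x.1 := rfl
@[simp] theorem smul_2 {R : Type*} [Semiring R] [Module R K] (k : R) (x : QE K ν) :
    (k • x).2 = k • x.2 := rfl
@[simp] theorem bar_1 (x : QE K ν) : x.bar.1 = x.1 + x.2 := rfl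
@[simp] theorem bar_2 (x : QE K ν) : x.bar.2 = -x.2 := rfl
@[simp] theorem mul_1 (x y : QE K ν) : (x * y).1 = x.1 * y.1 - ν * (x.2 * y.2) := rfl
@[simp] theorem mul_2 (x y : QE K ν) : (x * y).2 = x.1 * y.2 + x.2 * y.1 + x.2 * y.2 := rfl

end QE

namespace QQ

variable {K : Type*} [CommRing K] {ν β : K}

instance : AddCommGroup (QQ K ν β) := inferInstanceAs (AddCommGroup (QE K ν × QE K ν))

instance {R : Type*} [Semiring R] [Module R K] : Module R (QQ K ν β) :=
  inferInstanceAs (Module R (QE K ν × QE K ν))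

/-- conjugation -/
def bar (x : QQ K ν β) : QQ K ν β := (x.1.bar, -x.2)

instance : Mul (QQ K ν β) :=
  ⟨fun x y => (x.1 * y.1 + β • (y.2.bar * x.2), y.2 * x.1 + x.2 * y.1.bar)⟩

@[ext] theorem ext {x y : QQ K ν β} (h1 : x.1 = y.1) (h2 : x.2 = y.2) : x = y := Prod.ext h1 h2

@[simp] theorem zero_1 : (0 : QQ K ν β).1 = 0 := rfl
@[simp] theorem zero_2 : (0 : QQ K ν β).2 = 0 := rfl
@[simp] theorem add_1 (x y : QQ K ν β) : (x + y).1 = x.1 + y.1 := rfl
@[simp] theorem add_2 (x y : QQ K ν β) : (x + y).2 = x.2 + y.2 := rfl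
@[simp] theorem neg_1 (x : QQ K ν β) : (-x).1 = -x.1 := rfl
@[simp] theorem neg_2 (x : QQ K ν β) : (-x).2 = -x.2 := rfl
@[simp] theorem sub_1 (x y : QQ K ν β) : (x - y).1 = x.1 - y.1 := rfl
@[simp] theorem sub_2 (x y : QQ K ν β) : (x - y).2 = x.2 - y.2 := rfl
@[simp] theorem smul_1 {R : Type*} [Semiring R] [Module R K] (k : R) (x : QQ K ν β) :
    (k • x).1 = k • x.1 := rfl
@[simp] theorem smul_2 {R : Type*} [Semiring R] [Module R K] (k : R) (x : QQ K ν β) :
    (k • x).2 = k • x.2 := rfl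
@[simp] theorem bar_1 (x : QQ K ν β) : x.bar.1 = x.1.bar := rfl
@[simp] theorem bar_2 (x : QQ K ν β) : x.bar.2 = -x.2 := rfl
@[simp] theorem mul_1 (x y : QQ K ν β) : (x * y).1 = x.1 * y.1 + β • (y.2.bar * x.2) := rfl
@[simp] theorem mul_2 (x y : QQ K ν β) : (x * y).2 = y.2 * x.1 + x.2 * y.1.bar := rfl

end QQ

namespace Oct

variable {K : Type*} [CommRing K] {ν β γ : K}

instance : AddCommGroup (Oct K ν β γ) := inferInstanceAs (AddCommGroup (QQ K ν β × QQ K ν β))

instance {R : Type*} [Semiring R] [Module R K] : Module R (Oct K ν β γ) :=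
  inferInstanceAs (Module R (QQ K ν β × QQ K ν β))

/-- conjugation -/
def bar (x : Oct K ν β γ) : Oct K ν β γ := (x.1.bar, -x.2)

instance : Mul (Oct K ν β γ) :=
  ⟨fun x y => (x.1 * y.1 + γ • (y.2.bar * x.2), y.2 * x.1 + x.2 * y.1.bar)⟩

@[ext] theorem ext {x y : Oct K ν β γ} (h1 : x.1 = y.1) (h2 : x.2 = y.2) : x = y :=
  Prod.ext h1 h2

@[simp] theorem zero_1 : (0 : Oct K ν β γ).1 = 0 := rfl
@[simp] theorem zero_2 : (0 : Oct K ν β γ).2 = 0 := rfl
@[simp] theorem add_1 (x y : Oct K ν β γ) : (x + y).1 = x.1 + y.1 := rfl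
@[simp] theorem add_2 (x y : Oct K ν β γ) : (x + y).2 = x.2 + y.2 := rfl
@[simp] theorem neg_1 (x : Oct K ν β γ) : (-x).1 = -x.1 := rfl
@[simp] theorem neg_2 (x : Oct K ν β γ) : (-x).2 = -x.2 := rfl
@[simp] theorem sub_1 (x y : Oct K ν β γ) : (x - y).1 = x.1 - y.1 := rfl
@[simp] theorem sub_2 (x y : Oct K ν β γ) : (x - y).2 = x.2 - y.2 := rfl
@[simp] theorem smul_1 {R : Type*} [Semiring R] [Module R K] (k : R) (x : Oct K ν β γ) :
    (k • x).1 = k • x.1 := rfl
@[simp] theorem smul_2 {R : Type*} [Semiring R] [Module R K] (k : R) (x : Oct K ν β γ) :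
    (k • x).2 = k • x.2 := rfl
@[simp] theorem bar_1 (x : Oct K ν β γ) : x.bar.1 = x.1.bar := rfl
@[simp] theorem bar_2 (x : Oct K ν β γ) : x.bar.2 = -x.2 := rfl
@[simp] theorem mul_1 (x y : Oct K ν β γ) :
    (x * y).1 = x.1 * y.1 + γ • (y.2.bar * x.2) := rfl
@[simp] theorem mul_2 (x y : Oct K ν β γ) : (x * y).2 = y.2 * x.1 + x.2 * y.1.bar := rfl

instance : NonUnitalNonAssocRing (Oct K ν β γ) where
  left_distrib x y z := by ext <;> simp <;> ring
  right_distrib x y z := by ext <;> simp <;> ring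
  zero_mul x := by ext <;> simp
  mul_zero x := by ext <;> simp

instance {R : Type*} [CommSemiring R] [Algebra R K] :
    IsScalarTower R (Oct K ν β γ) (Oct K ν β γ) where
  smul_assoc k x y := by
    show (k • x) * y = k • (x * y)
    ext <;> simp [Algebra.smul_def] <;> ring

instance {R : Type*} [CommSemiring R] [Algebra R K] :
    SMulCommClass R (Oct K ν β γ) (Oct K ν β γ) where
  smul_comm k x y := by
    show k • (x * y) = x * (k • y)
    ext <;> simp [Algebra.smul_def] <;> ring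

end Oct

end Pool.Agent.H.MP_41922c_al
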