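import Pool.Agent.H.MP_41922c_al.Stmt
import Pool.Agent.H.MP_41922c_al.Defs

/-!
# Identities of an octonion algebra over an infinite field hold in all octonion algebras
-/

set_option autoImplicit false
set_option linter.unusedSectionVars false

namespace Pool.Agent.H.MP_41922c_al

open FreeNonUnitalNonAssocAlgebra

theorem IsIdentity.of_surjective {F A B : Type*} [CommSemiring F] [NonUnitalNonAssocRing A]
    [Module F A] [IsScalarTower F A A] [SMulCommClass F A A] [NonUnitalNonAssocRing B] [Module F B]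
    [IsScalarTower F B B] [SMulCommClass F B B]
    {f : FreeNonUnitalNonAssocAlgebra F ℕ} (hf : IsIdentity F A f) (g : A →ₙₐ[F] B)
    (hg : Function.Surjective g) : IsIdentity F B f := by
  intro φ
  choose s hs using hg
  have h := hf (lift F (fun i => s (φ (of F i))))
  have e : φ = g.comp (lift F (fun i => s (φ (of F i)))) := by
    refine hom_ext _ (fun i => ?_)
    rw [NonUnitalAlgHom.comp_apply, lift_of_apply, hs]
  rw [e, NonUnitalAlgHom.comp_apply, h, map_zero]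

theorem IsIdentity.of_injective {F A B : Type*} [CommSemiring F] [NonUnitalNonAssocRing A]
    [Module F A] [NonUnitalNonAssocRing B] [Module F B]
    {f : FreeNonUnitalNonAssocAlgebra F ℕ} (hf : IsIdentity F B f) (g : A →ₙₐ[F] B)
    (hg : Function.Injective g) : IsIdentity F A f := by
  intro φ
  refine hg ?_
  rw [map_zero, ← NonUnitalAlgHom.comp_apply]
  exact hf _

namespace Oct

/-- the element with given coordinates -/
def mk {K : Type*} {ν β γ : K} (a b c d a' b' c' d' : K) : Oct K ν β γ :=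
  (((a, b), (c, d)), ((a', b'), (c', d')))

section mk

variable {K : Type*} {ν β γ : K} (a b c d a' b' c' d' : K)

@[simp] theorem mk_111 : (mk a b c d a' b' c' d' : Oct K ν β γ).1.1.1 = a := rfl
@[simp] theorem mk_112 : (mk a b c d a' b' c' d' : Oct K ν β γ).1.1.2 = b := rfl
@[simp] theorem mk_121 : (mk a b c d a' b' c' d' : Oct K ν β γ).1.2.1 = c := rfl
@[simp] theorem mk_122 : (mk a b c d a' b' c' d' : Oct K ν β γ).1.2.2 = d := rfl
@[simp] theorem mk_211 : (mk a b c d a' b' c' d' : Oct K ν β γ).2.1.1 = a' := rfl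
@[simp] theorem mk_212 : (mk a b c d a' b' c' d' : Oct K ν β γ).2.1.2 = b' := rfl
@[simp] theorem mk_221 : (mk a b c d a' b' c' d' : Oct K ν β γ).2.2.1 = c' := rfl
@[simp] theorem mk_222 : (mk a b c d a' b' c' d' : Oct K ν β γ).2.2.2 = d' := rfl

end mk

theorem ext8 {K : Type*} {ν β γ : K} {x y : Oct K ν β γ} (h1 : x.1.1.1 = y.1.1.1)
    (h2 : x.1.1.2 = y.1.1.2) (h3 : x.1.2.1 = y.1.2.1) (h4 : x.1.2.2 = y.1.2.2)
    (h5 : x.2.1.1 = y.2.1.1) (h6 : x.2.1.2 = y.2.1.2) (h7 : x.2.2.1 = y.2.2.1)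
    (h8 : x.2.2.2 = y.2.2.2) : x = y :=
  Prod.ext (Prod.ext (Prod.ext h1 h2) (Prod.ext h3 h4))
    (Prod.ext (Prod.ext h5 h6) (Prod.ext h7 h8))

section map

variable {F K K' : Type*} [CommRing F] [CommRing K] [CommRing K'] [Algebra F K] [Algebra F K']

/-- Functoriality in the ring of coefficients. -/
def map (g : K →ₐ[F] K') {ν β γ : K} {ν' β' γ' : K'} (h1 : g ν = ν') (h2 : g β = β')
    (h3 : g γ = γ') : Oct K ν β γ →ₙₐ[F] Oct K' ν' β' γ' where
  toFun x := mk (g x.1.1.1) (g x.1.1.2) (g x.1.2.1) (g x.1.2.2)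
    (g x.2.1.1) (g x.2.1.2) (g x.2.2.1) (g x.2.2.2)
  map_smul' k x := by ext <;> simp
  map_zero' := by ext <;> simp
  map_add' x y := by ext <;> simp
  map_mul' x y := by subst h1 h2 h3; ext <;> simp

theorem map_apply (g : K →ₐ[F] K') {ν β γ : K} {ν' β' γ' : K'} (h1 : g ν = ν') (h2 : g β = β')
    (h3 : g γ = γ') (x : Oct K ν β γ) : map g h1 h2 h3 x =
    mk (g x.1.1.1) (g x.1.1.2) (g x.1.2.1) (g x.1.2.2)
    (g x.2.1.1) (g x.2.1.2) (g x.2.2.1) (g x.2.2.2) := rfl

theorem map_injective (g : K →ₐ[F] K') (hg : Function.Injective g) {ν β γ : K} {ν' β' γ' : K'}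
    (h1 : g ν = ν') (h2 : g β = β') (h3 : g γ = γ') : Function.Injective (map g h1 h2 h3) := by
  intro x y hxy
  simp only [map_apply] at hxy
  have e1 := congrArg (fun z : Oct K' ν' β' γ' => z.1.1.1) hxy
  have e2 := congrArg (fun z : Oct K' ν' β' γ' => z.1.1.2) hxy
  have e3 := congrArg (fun z : Oct K' ν' β' γ' => z.1.2.1) hxy
  have e4 := congrArg (fun z : Oct K' ν' β' γ' => z.1.2.2) hxy
  have e5 := congrArg (fun z : Oct K' ν' β' γ' => z.2.1.1) hxy
  have e6 := congrArg (fun z : Oct K' ν' β' γ' => z.2.1.2) hxy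
  have e7 := congrArg (fun z : Oct K' ν' β' γ' => z.2.2.1) hxy
  have e8 := congrArg (fun z : Oct K' ν' β' γ' => z.2.2.2) hxy
  ext
  · exact hg e1
  · exact hg e2
  · exact hg e3
  · exact hg e4
  · exact hg e5
  · exact hg e6
  · exact hg e7
  · exact hg e8

end map

/-- the element with given coordinates -/
def mk8 {K : Type*} {ν β γ : K} (c : Fin 8 → K) : Oct K ν β γ :=
  mk (c 0) (c 1) (c 2) (c 3) (c 4) (c 5) (c 6) (c 7)

/-- the coordinates -/
def coord {K : Type*} {ν β γ : K} (x : Oct K ν β γ) : Fin 8 → K :=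
  ![x.1.1.1, x.1.1.2, x.1.2.1, x.1.2.2, x.2.1.1, x.2.1.2, x.2.2.1, x.2.2.2]

theorem mk8_coord {K : Type*} {ν β γ : K} (x : Oct K ν β γ) : mk8 x.coord = x := rfl

section generic

variable {F : Type*} [Field F]

theorem eq_zero_of_map {σ : Type*} [Infinite F] {ν β γ : F}
    (G : Oct (MvPolynomial σ F) (MvPolynomial.C ν) (MvPolynomial.C β) (MvPolynomial.C γ))
    (h : ∀ ρ : σ → F, map (ν' := ν) (β' := β) (γ' := γ) (MvPolynomial.aeval ρ : _ →ₐ[F] F)
      (by simp) (by simp) (by simp) G = 0) : G = 0 := by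
  have key : ∀ P : MvPolynomial σ F, (∀ ρ : σ → F, MvPolynomial.aeval ρ P = 0) → P = 0 := by
    intro P hP
    refine MvPolynomial.funext fun ρ => ?_
    rw [map_zero, ← MvPolynomial.coe_aeval_eq_eval]
    exact hP ρ
  refine ext8 ?_ ?_ ?_ ?_ ?_ ?_ ?_ ?_
  · exact key _ fun ρ => congrArg (fun z : Oct F ν β γ => z.1.1.1) (h ρ)
  · exact key _ fun ρ => congrArg (fun z : Oct F ν β γ => z.1.1.2) (h ρ)
  · exact key _ fun ρ => congrArg (fun z : Oct F ν β γ => z.1.2.1) (h ρ)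
  · exact key _ fun ρ => congrArg (fun z : Oct F ν β γ => z.1.2.2) (h ρ)
  · exact key _ fun ρ => congrArg (fun z : Oct F ν β γ => z.2.1.1) (h ρ)
  · exact key _ fun ρ => congrArg (fun z : Oct F ν β γ => z.2.1.2) (h ρ)
  · exact key _ fun ρ => congrArg (fun z : Oct F ν β γ => z.2.2.1) (h ρ)
  · exact key _ fun ρ => congrArg (fun z : Oct F ν β γ => z.2.2.2) (h ρ)

/-- Identities over an infinite field hold after extension of scalars. -/
theorem identity_base_change [Infinite F] {ν β γ : F} {f : FreeNonUnitalNonAssocAlgebra F ℕ}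
    (hf : IsIdentity F (Oct F ν β γ) f) (K : Type*) [CommRing K] [Algebra F K] {ν' β' γ' : K}
    (h1 : algebraMap F K ν = ν') (h2 : algebraMap F K β = β') (h3 : algebraMap F K γ = γ') :
    IsIdentity F (Oct K ν' β' γ') f := by
  let x : ℕ → Oct (MvPolynomial (ℕ × Fin 8) F) (MvPolynomial.C ν) (MvPolynomial.C β)
    (MvPolynomial.C γ) := fun i => mk8 (fun j => MvPolynomial.X (i, j))
  have hG : lift F x f = 0 := by
    refine eq_zero_of_map _ fun ρ => ?_
    rw [← NonUnitalAlgHom.comp_apply]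
    exact hf _
  intro φ
  let g : MvPolynomial (ℕ × Fin 8) F →ₐ[F] K := MvPolynomial.aeval (fun p => (φ (of F p.1)).coord p.2)
  have e : φ = (map g (by simpa [g] using h1) (by simpa [g] using h2)
      (by simpa [g] using h3)).comp (lift F x) := by
    refine hom_ext _ (fun i => ?_)
    rw [NonUnitalAlgHom.comp_apply, lift_of_apply, map_apply]
    refine ext8 ?_ ?_ ?_ ?_ ?_ ?_ ?_ ?_ <;> simp [x, mk8, g, coord]
  rw [e, NonUnitalAlgHom.comp_apply, hG, map_zero]

end generic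

/-! ### splitting -/

section split

variable (F : Type*) {L : Type*} [CommRing F] [Field L] [Algebra F L]

/-- normalisation of `w` -/
def splitA (r β γ : L) : Oct L (r - r ^ 2) β γ →ₙₐ[F] Oct L 0 β γ where
  toFun x := mk (x.1.1.1 + r * x.1.1.2) ((1 - 2 * r) * x.1.1.2)
    (x.1.2.1 + r * x.1.2.2) ((1 - 2 * r) * x.1.2.2)
    (x.2.1.1 + r * x.2.1.2) ((1 - 2 * r) * x.2.1.2)
    (x.2.2.1 + r * x.2.2.2) ((1 - 2 * r) * x.2.2.2)
  map_smul' k x := by ext <;> simp [Algebra.smul_def] <;> ring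
  map_zero' := by ext <;> simp
  map_add' x y := by ext <;> simp <;> ring
  map_mul' x y := by ext <;> simp <;> ring

/-- normalisation of `j` -/
def splitB (β γ : L) : Oct L 0 β γ →ₙₐ[F] Oct L 0 1 γ where
  toFun x := mk x.1.1.1 x.1.1.2 (β * x.1.2.1) ((1 - β) * x.1.2.1 + x.1.2.2)
    x.2.1.1 x.2.1.2 (β * x.2.2.1) ((1 - β) * x.2.2.1 + x.2.2.2)
  map_smul' k x := by ext <;> simp [Algebra.smul_def] <;> ring
  map_zero' := by ext <;> simp
  map_add' x y := by ext <;> simp <;> ring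
  map_mul' x y := by ext <;> simp <;> ring

/-- normalisation of `l` -/
def splitC (γ : L) : Oct L 0 1 γ →ₙₐ[F] Oct L 0 1 1 where
  toFun x := mk x.1.1.1 x.1.1.2 x.1.2.1 x.1.2.2 (γ * x.2.1.1) ((1 - γ) * x.2.1.1 + x.2.1.2)
    (γ * x.2.2.1) ((1 - γ) * x.2.2.1 + x.2.2.2)
  map_smul' k x := by ext <;> simp [Algebra.smul_def] <;> ring
  map_zero' := by ext <;> simp
  map_add' x y := by ext <;> simp <;> ring
  map_mul' x y := by ext <;> simp <;> ring

theorem splitA_apply (r β γ : L) (x : Oct L (r - r ^ 2) β γ) : splitA F r β γ x =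
    mk (x.1.1.1 + r * x.1.1.2) ((1 - 2 * r) * x.1.1.2)
    (x.1.2.1 + r * x.1.2.2) ((1 - 2 * r) * x.1.2.2)
    (x.2.1.1 + r * x.2.1.2) ((1 - 2 * r) * x.2.1.2)
    (x.2.2.1 + r * x.2.2.2) ((1 - 2 * r) * x.2.2.2) := rfl

theorem splitB_apply (β γ : L) (x : Oct L 0 β γ) : splitB F β γ x =
    mk x.1.1.1 x.1.1.2 (β * x.1.2.1) ((1 - β) * x.1.2.1 + x.1.2.2)
    x.2.1.1 x.2.1.2 (β * x.2.2.1) ((1 - β) * x.2.2.1 + x.2.2.2) := rfl

theorem splitC_apply (γ : L) (x : Oct L 0 1 γ) : splitC F γ x =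
    mk x.1.1.1 x.1.1.2 x.1.2.1 x.1.2.2 (γ * x.2.1.1) ((1 - γ) * x.2.1.1 + x.2.1.2)
    (γ * x.2.2.1) ((1 - γ) * x.2.2.1 + x.2.2.2) := rfl

theorem splitA_bij {r : L} (hr : 1 - 2 * r ≠ 0) (β γ : L) :
    Function.Bijective (splitA F r β γ) := by
  constructor
  · rw [injective_iff_map_eq_zero]
    intro x hx
    rw [splitA_apply] at hx
    have c1 : x.1.1.1 + r * x.1.1.2 = 0 := congrArg (fun z : Oct L 0 β γ => z.1.1.1) hx
    have c2 : (1 - 2 * r) * x.1.1.2 = 0 := congrArg (fun z : Oct L 0 β γ => z.1.1.2) hx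
    have c3 : x.1.2.1 + r * x.1.2.2 = 0 := congrArg (fun z : Oct L 0 β γ => z.1.2.1) hx
    have c4 : (1 - 2 * r) * x.1.2.2 = 0 := congrArg (fun z : Oct L 0 β γ => z.1.2.2) hx
    have c5 : x.2.1.1 + r * x.2.1.2 = 0 := congrArg (fun z : Oct L 0 β γ => z.2.1.1) hx
    have c6 : (1 - 2 * r) * x.2.1.2 = 0 := congrArg (fun z : Oct L 0 β γ => z.2.1.2) hx
    have c7 : x.2.2.1 + r * x.2.2.2 = 0 := congrArg (fun z : Oct L 0 β γ => z.2.2.1) hx
    have c8 : (1 - 2 * r) * x.2.2.2 = 0 := congrArg (fun z : Oct L 0 β γ => z.2.2.2) hx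
    have d2 := (mul_eq_zero.1 c2).resolve_left hr
    have d4 := (mul_eq_zero.1 c4).resolve_left hr
    have d6 := (mul_eq_zero.1 c6).resolve_left hr
    have d8 := (mul_eq_zero.1 c8).resolve_left hr
    rw [d2, mul_zero, add_zero] at c1
    rw [d4, mul_zero, add_zero] at c3
    rw [d6, mul_zero, add_zero] at c5
    rw [d8, mul_zero, add_zero] at c7
    exact ext8 c1 d2 c3 d4 c5 d6 c7 d8
  · intro y
    refine ⟨mk (y.1.1.1 - r * (y.1.1.2 / (1 - 2 * r))) (y.1.1.2 / (1 - 2 * r))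
      (y.1.2.1 - r * (y.1.2.2 / (1 - 2 * r))) (y.1.2.2 / (1 - 2 * r))
      (y.2.1.1 - r * (y.2.1.2 / (1 - 2 * r))) (y.2.1.2 / (1 - 2 * r))
      (y.2.2.1 - r * (y.2.2.2 / (1 - 2 * r))) (y.2.2.2 / (1 - 2 * r)), ?_⟩
    rw [splitA_apply]
    refine ext8 ?_ ?_ ?_ ?_ ?_ ?_ ?_ ?_ <;>
      simp only [mk_111, mk_112, mk_121, mk_122, mk_211, mk_212, mk_221, mk_222,
        sub_add_cancel] <;> exact mul_div_cancel₀ _ hr

theorem splitB_bij {β : L} (hβ : β ≠ 0) (γ : L) : Function.Bijective (splitB F β γ) := by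
  constructor
  · rw [injective_iff_map_eq_zero]
    intro x hx
    rw [splitB_apply] at hx
    have c1 : x.1.1.1 = 0 := congrArg (fun z : Oct L 0 1 γ => z.1.1.1) hx
    have c2 : x.1.1.2 = 0 := congrArg (fun z : Oct L 0 1 γ => z.1.1.2) hx
    have c3 : β * x.1.2.1 = 0 := congrArg (fun z : Oct L 0 1 γ => z.1.2.1) hx
    have c4 : (1 - β) * x.1.2.1 + x.1.2.2 = 0 := congrArg (fun z : Oct L 0 1 γ => z.1.2.2) hx
    have c5 : x.2.1.1 = 0 := congrArg (fun z : Oct L 0 1 γ => z.2.1.1) hx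
    have c6 : x.2.1.2 = 0 := congrArg (fun z : Oct L 0 1 γ => z.2.1.2) hx
    have c7 : β * x.2.2.1 = 0 := congrArg (fun z : Oct L 0 1 γ => z.2.2.1) hx
    have c8 : (1 - β) * x.2.2.1 + x.2.2.2 = 0 := congrArg (fun z : Oct L 0 1 γ => z.2.2.2) hx
    have d3 := (mul_eq_zero.1 c3).resolve_left hβ
    have d7 := (mul_eq_zero.1 c7).resolve_left hβ
    rw [d3, mul_zero, zero_add] at c4
    rw [d7, mul_zero, zero_add] at c8
    exact ext8 c1 c2 d3 c4 c5 c6 d7 c8
  · intro y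
    refine ⟨mk y.1.1.1 y.1.1.2 (y.1.2.1 / β) (y.1.2.2 - (1 - β) * (y.1.2.1 / β))
      y.2.1.1 y.2.1.2 (y.2.2.1 / β) (y.2.2.2 - (1 - β) * (y.2.2.1 / β)), ?_⟩
    rw [splitB_apply]
    refine ext8 rfl rfl ?_ ?_ rfl rfl ?_ ?_ <;>
      simp only [mk_111, mk_112, mk_121, mk_122, mk_211, mk_212, mk_221, mk_222,
        add_sub_cancel] <;> exact mul_div_cancel₀ _ hβ

theorem splitC_bij {γ : L} (hγ : γ ≠ 0) : Function.Bijective (splitC F γ) := by
  constructor
  · rw [injective_iff_map_eq_zero]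
    intro x hx
    rw [splitC_apply] at hx
    have c1 : x.1.1.1 = 0 := congrArg (fun z : Oct L 0 1 1 => z.1.1.1) hx
    have c2 : x.1.1.2 = 0 := congrArg (fun z : Oct L 0 1 1 => z.1.1.2) hx
    have c3 : x.1.2.1 = 0 := congrArg (fun z : Oct L 0 1 1 => z.1.2.1) hx
    have c4 : x.1.2.2 = 0 := congrArg (fun z : Oct L 0 1 1 => z.1.2.2) hx
    have c5 : γ * x.2.1.1 = 0 := congrArg (fun z : Oct L 0 1 1 => z.2.1.1) hx
    have c6 : (1 - γ) * x.2.1.1 + x.2.1.2 = 0 := congrArg (fun z : Oct L 0 1 1 => z.2.1.2) hx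
    have c7 : γ * x.2.2.1 = 0 := congrArg (fun z : Oct L 0 1 1 => z.2.2.1) hx
    have c8 : (1 - γ) * x.2.2.1 + x.2.2.2 = 0 := congrArg (fun z : Oct L 0 1 1 => z.2.2.2) hx
    have d5 := (mul_eq_zero.1 c5).resolve_left hγ
    have d7 := (mul_eq_zero.1 c7).resolve_left hγ
    rw [d5, mul_zero, zero_add] at c6
    rw [d7, mul_zero, zero_add] at c8
    exact ext8 c1 c2 c3 c4 d5 c6 d7 c8
  · intro y
    refine ⟨mk y.1.1.1 y.1.1.2 y.1.2.1 y.1.2.2 (y.2.1.1 / γ) (y.2.1.2 - (1 - γ) * (y.2.1.1 / γ))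
      (y.2.2.1 / γ) (y.2.2.2 - (1 - γ) * (y.2.2.1 / γ)), ?_⟩
    rw [splitC_apply]
    refine ext8 rfl rfl rfl rfl ?_ ?_ ?_ ?_ <;>
      simp only [mk_111, mk_112, mk_121, mk_122, mk_211, mk_212, mk_221, mk_222,
        add_sub_cancel] <;> exact mul_div_cancel₀ _ hγ

/-- Over a field in which `w² = w - ν` has a root, a nondegenerate octonion algebra is split. -/
theorem exists_split {r β γ : L} (hr : 1 - 2 * r ≠ 0) (hβ : β ≠ 0) (hγ : γ ≠ 0) :
    ∃ g : Oct L (r - r ^ 2) β γ →ₙₐ[F] Oct L 0 1 1, Function.Bijective g :=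
  ⟨((splitC F γ).comp (splitB F β γ)).comp (splitA F r β γ),
    ((splitC_bij F hγ).comp (splitB_bij F hβ γ)).comp (splitA_bij F hr β γ)⟩

end split

theorem exists_root {L : Type*} [Field L] [IsAlgClosed L] (ν : L) : ∃ r : L, ν = r - r ^ 2 := by
  have hd : (Polynomial.X ^ 2 - Polynomial.X + Polynomial.C ν : Polynomial L).degree ≠ 0 := by
    have : (Polynomial.X ^ 2 - Polynomial.X + Polynomial.C ν : Polynomial L).degree = 2 := by
      compute_degree!
    rw [this]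
    norm_num
  obtain ⟨r, hr⟩ := IsAlgClosed.exists_root _ hd
  refine ⟨r, ?_⟩
  simp only [Polynomial.IsRoot.def, Polynomial.eval_add, Polynomial.eval_sub, Polynomial.eval_pow,
    Polynomial.eval_X, Polynomial.eval_C] at hr
  linear_combination hr

section all

variable {F : Type*} [Field F] [Infinite F] {ν β γ : F}

/-- **An identity of one octonion algebra over an infinite field is an identity of all octonion
algebras over all commutative algebras.** -/
theorem identity_all (h : (1 - 4 * ν) * β * γ ≠ 0) {f : FreeNonUnitalNonAssocAlgebra F ℕ}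
    (hf : IsIdentity F (Oct F ν β γ) f) (K : Type*) [CommRing K] [Algebra F K] (ν' β' γ' : K) :
    IsIdentity F (Oct K ν' β' γ') f := by
  have hβ : β ≠ 0 := fun h0 => h (by rw [h0]; ring)
  have hγ : γ ≠ 0 := fun h0 => h (by rw [h0]; ring)
  have hν : 1 - 4 * ν ≠ 0 := fun h0 => h (by rw [h0]; ring)
  -- step 1
  obtain ⟨r, hr⟩ := exists_root (algebraMap F (AlgebraicClosure F) ν)
  have h1 : IsIdentity F (Oct (AlgebraicClosure F) (r - r ^ 2)
      (algebraMap F (AlgebraicClosure F) β) (algebraMap F (AlgebraicClosure F) γ)) f :=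
    identity_base_change hf _ hr rfl rfl
  have hr2 : 1 - 2 * r ≠ 0 := by
    intro h0
    apply hν
    apply FaithfulSMul.algebraMap_injective F (AlgebraicClosure F)
    have : algebraMap F (AlgebraicClosure F) (1 - 4 * ν) = (1 - 2 * r) ^ 2 := by
      rw [map_sub, map_mul, hr, map_one, map_ofNat]; ring
    rw [this, h0, map_zero]; ring
  obtain ⟨g, hg⟩ := exists_split F (L := AlgebraicClosure F) hr2
    (by simpa using hβ : algebraMap F (AlgebraicClosure F) β ≠ 0)
    (by simpa using hγ : algebraMap F (AlgebraicClosure F) γ ≠ 0)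
  have h2 : IsIdentity F (Oct (AlgebraicClosure F) 0 1 1) f := h1.of_surjective g hg.2
  have h3 : IsIdentity F (Oct F 0 1 1) f :=
    h2.of_injective (map (Algebra.ofId F (AlgebraicClosure F)) (map_zero _) (map_one _)
      (map_one _)) (map_injective _ (FaithfulSMul.algebraMap_injective F _) _ _ _)
  -- step 2
  let Kg := MvPolynomial (Fin 3 ⊕ (ℕ × Fin 8)) F
  let L := AlgebraicClosure (FractionRing Kg)
  let ν₁ : Kg := MvPolynomial.X (Sum.inl 0)
  let β₁ : Kg := MvPolynomial.X (Sum.inl 1)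
  let γ₁ : Kg := MvPolynomial.X (Sum.inl 2)
  let ι : Kg →ₐ[F] L := IsScalarTower.toAlgHom F Kg L
  have hι : Function.Injective ι := by
    intro a b hab
    have e1 : algebraMap (FractionRing Kg) L (algebraMap Kg (FractionRing Kg) a) =
        algebraMap (FractionRing Kg) L (algebraMap Kg (FractionRing Kg) b) := by
      rw [← IsScalarTower.algebraMap_apply Kg (FractionRing Kg) L,
        ← IsScalarTower.algebraMap_apply Kg (FractionRing Kg) L]
      exact hab
    exact IsFractionRing.injective Kg (FractionRing Kg)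
      (FaithfulSMul.algebraMap_injective (FractionRing Kg) L e1)
  obtain ⟨s, hs⟩ := exists_root (ι ν₁)
  have hs2 : 1 - 2 * s ≠ 0 := by
    intro h0
    have e1 : ι (1 - 4 * ν₁) = (1 - 2 * s) ^ 2 := by
      rw [map_sub, map_mul, hs, map_one, map_ofNat]; ring
    have e2 : ι (1 - 4 * ν₁) = ι 0 := by rw [e1, h0, map_zero]; ring
    have e3 := hι e2
    have e4 := congrArg (MvPolynomial.eval (fun _ => (0 : F))) e3
    simp [ν₁] at e4
  obtain ⟨g', hg'⟩ := exists_split F (L := L) hs2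
    (by intro h0; exact MvPolynomial.X_ne_zero _ (hι (h0.trans (map_zero ι).symm)) : ι β₁ ≠ 0)
    (by intro h0; exact MvPolynomial.X_ne_zero _ (hι (h0.trans (map_zero ι).symm)) : ι γ₁ ≠ 0)
  have h4 : IsIdentity F (Oct L 0 1 1) f :=
    identity_base_change h3 L (map_zero _) (map_one _) (map_one _)
  have h5 : IsIdentity F (Oct Kg ν₁ β₁ γ₁) f :=
    (h4.of_injective g' hg'.1).of_injective (map ι hs rfl rfl) (map_injective ι hι _ _ _)
  -- step 3
  intro φ
  let x : ℕ → Oct Kg ν₁ β₁ γ₁ := fun i => mk8 (fun j => MvPolynomial.X (Sum.inr (i, j)))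
  let q : Kg →ₐ[F] K :=
    MvPolynomial.aeval (Sum.elim ![ν', β', γ'] (fun p => (φ (of F p.1)).coord p.2))
  have q1 : q ν₁ = ν' := MvPolynomial.aeval_X _ _
  have q2 : q β₁ = β' := MvPolynomial.aeval_X _ _
  have q3 : q γ₁ = γ' := MvPolynomial.aeval_X _ _
  have qx : ∀ (i : ℕ) (j : Fin 8), q (MvPolynomial.X (Sum.inr (i, j))) = (φ (of F i)).coord j :=
    fun i j => MvPolynomial.aeval_X _ _
  have e : φ = (map q q1 q2 q3).comp (lift F x) := by
    refine hom_ext _ (fun i => ?_)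
    rw [NonUnitalAlgHom.comp_apply, lift_of_apply, map_apply]
    exact ext8 (qx i 0).symm (qx i 1).symm (qx i 2).symm (qx i 3).symm (qx i 4).symm
      (qx i 5).symm (qx i 6).symm (qx i 7).symm
  rw [e, NonUnitalAlgHom.comp_apply, h5, map_zero]

end all

end Oct

end Pool.Agent.H.MP_41922c_al
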