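import Pool.Agent.H.MP_41922c_al.Main
import Pool.Agent.H.MP_41922c_al.Generic

/-!
# T-ideals and relatively free algebras
-/

set_option autoImplicit false
set_option linter.unusedSectionVars false

namespace Pool.Agent.H.MP_41922c_al

open FreeNonUnitalNonAssocAlgebra

noncomputable section

section

variable {F : Type*} [CommRing F]

theorem subset_tIdeal (S : Set (FreeNonUnitalNonAssocAlgebra F ℕ)) :
    S ⊆ (tIdeal F S : Set (FreeNonUnitalNonAssocAlgebra F ℕ)) := by
  intro f hf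
  rw [SetLike.mem_coe, tIdeal, Submodule.mem_sInf]
  exact fun I hI => hI.2 hf

theorem isTIdeal_tIdeal (S : Set (FreeNonUnitalNonAssocAlgebra F ℕ)) :
    IsTIdeal F (tIdeal F S) := by
  refine ⟨fun a f hf => ?_, fun a f hf => ?_, fun φ f hf => ?_⟩ <;>
    rw [tIdeal, Submodule.mem_sInf] at hf ⊢ <;> intro I hI
  · exact hI.1.mul_left _ _ (hf I hI)
  · exact hI.1.mul_right _ _ (hf I hI)
  · exact hI.1.map _ _ (hf I hI)

theorem tIdeal_le {S : Set (FreeNonUnitalNonAssocAlgebra F ℕ)}
    {I : Submodule F (FreeNonUnitalNonAssocAlgebra F ℕ)} (hI : IsTIdeal F I) (hS : S ⊆ I) :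
    tIdeal F S ≤ I := sInf_le ⟨hI, hS⟩

/-- The identities of an algebra form a T-ideal. -/
def identities (F A : Type*) [CommRing F] [NonUnitalNonAssocRing A] [Module F A] :
    Submodule F (FreeNonUnitalNonAssocAlgebra F ℕ) where
  carrier := {f | IsIdentity F A f}
  zero_mem' φ := map_zero φ
  add_mem' {f g} hf hg φ := by rw [map_add, hf φ, hg φ, add_zero]
  smul_mem' k f hf φ := by rw [map_smul, hf φ, smul_zero]

theorem isTIdeal_identities (A : Type*) [NonUnitalNonAssocRing A] [Module F A] :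
    IsTIdeal F (identities F A) where
  mul_left a f hf φ := by rw [map_mul, hf φ, mul_zero]
  mul_right a f hf φ := by rw [map_mul, hf φ, zero_mul]
  map φ f hf ψ := by rw [← NonUnitalAlgHom.comp_apply]; exact hf _

/-! ### the relatively free algebra -/

/-- the quotient of the free algebra by a T-ideal -/
@[nolint unusedArguments]
def QA {I : Submodule F (FreeNonUnitalNonAssocAlgebra F ℕ)} (_ : IsTIdeal F I) : Type _ :=
  FreeNonUnitalNonAssocAlgebra F ℕ ⧸ I

variable {I : Submodule F (FreeNonUnitalNonAssocAlgebra F ℕ)} (hI : IsTIdeal F I)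

instance : AddCommGroup (QA hI) :=
  inferInstanceAs (AddCommGroup (FreeNonUnitalNonAssocAlgebra F ℕ ⧸ I))
instance : Module F (QA hI) :=
  inferInstanceAs (Module F (FreeNonUnitalNonAssocAlgebra F ℕ ⧸ I))

/-- the class of a polynomial -/
def qmk (f : FreeNonUnitalNonAssocAlgebra F ℕ) : QA hI := Submodule.Quotient.mk f

theorem qmk_eq (f g : FreeNonUnitalNonAssocAlgebra F ℕ) : qmk hI f = qmk hI g ↔ f - g ∈ I :=
  Submodule.Quotient.eq I

theorem qmk_surj (x : QA hI) : ∃ f, qmk hI f = x := Submodule.Quotient.mk_surjective I x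

instance : Mul (QA hI) :=
  ⟨fun x y => qmk hI (Classical.choose (qmk_surj hI x) * Classical.choose (qmk_surj hI y))⟩

theorem qmk_mul (f g : FreeNonUnitalNonAssocAlgebra F ℕ) :
    qmk hI f * qmk hI g = qmk hI (f * g) := by
  have h1 := Classical.choose_spec (qmk_surj hI (qmk hI f))
  have h2 := Classical.choose_spec (qmk_surj hI (qmk hI g))
  show qmk hI (Classical.choose (qmk_surj hI (qmk hI f)) *
    Classical.choose (qmk_surj hI (qmk hI g))) = _
  set f' := Classical.choose (qmk_surj hI (qmk hI f))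
  set g' := Classical.choose (qmk_surj hI (qmk hI g))
  rw [qmk_eq] at h1 h2 ⊢
  have e : f' * g' - f * g = f' * (g' - g) + (f' - f) * g := by
    rw [mul_sub, sub_mul]; abel
  rw [e]
  exact I.add_mem (hI.mul_left _ _ h2) (hI.mul_right _ _ h1)

theorem qmk_add (f g : FreeNonUnitalNonAssocAlgebra F ℕ) :
    qmk hI f + qmk hI g = qmk hI (f + g) := rfl

theorem qmk_smul (k : F) (f : FreeNonUnitalNonAssocAlgebra F ℕ) :
    k • qmk hI f = qmk hI (k • f) := rfl

theorem qmk_zero : (0 : QA hI) = qmk hI 0 := rfl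

instance : NonUnitalNonAssocRing (QA hI) where
  left_distrib x y z := by
    obtain ⟨x, rfl⟩ := qmk_surj hI x
    obtain ⟨y, rfl⟩ := qmk_surj hI y
    obtain ⟨z, rfl⟩ := qmk_surj hI z
    rw [qmk_add, qmk_mul, qmk_mul, qmk_mul, qmk_add, mul_add]
  right_distrib x y z := by
    obtain ⟨x, rfl⟩ := qmk_surj hI x
    obtain ⟨y, rfl⟩ := qmk_surj hI y
    obtain ⟨z, rfl⟩ := qmk_surj hI z
    rw [qmk_add, qmk_mul, qmk_mul, qmk_mul, qmk_add, add_mul]
  zero_mul x := by
    obtain ⟨x, rfl⟩ := qmk_surj hI x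
    rw [qmk_zero, qmk_mul, zero_mul]
  mul_zero x := by
    obtain ⟨x, rfl⟩ := qmk_surj hI x
    rw [qmk_zero, qmk_mul, mul_zero]

instance : IsScalarTower F (QA hI) (QA hI) where
  smul_assoc k x y := by
    obtain ⟨x, rfl⟩ := qmk_surj hI x
    obtain ⟨y, rfl⟩ := qmk_surj hI y
    show (k • qmk hI x) * qmk hI y = k • (qmk hI x * qmk hI y)
    rw [qmk_smul, qmk_mul, qmk_mul, qmk_smul, smul_mul_assoc]

instance : SMulCommClass F (QA hI) (QA hI) where
  smul_comm k x y := by
    obtain ⟨x, rfl⟩ := qmk_surj hI x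
    obtain ⟨y, rfl⟩ := qmk_surj hI y
    show k • (qmk hI x * qmk hI y) = qmk hI x * (k • qmk hI y)
    rw [qmk_smul, qmk_mul, qmk_mul, qmk_smul, mul_smul_comm]

/-- the canonical homomorphism -/
def qhom : FreeNonUnitalNonAssocAlgebra F ℕ →ₙₐ[F] QA hI where
  toFun := qmk hI
  map_smul' k f := rfl
  map_zero' := rfl
  map_add' f g := rfl
  map_mul' f g := (qmk_mul hI f g).symm

theorem qhom_apply (f : FreeNonUnitalNonAssocAlgebra F ℕ) : qhom hI f = qmk hI f := rfl

theorem qhom_eq_zero (f : FreeNonUnitalNonAssocAlgebra F ℕ) : qhom hI f = 0 ↔ f ∈ I := by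
  rw [qhom_apply, qmk_zero, qmk_eq, sub_zero]

theorem identity_QA {f : FreeNonUnitalNonAssocAlgebra F ℕ} (hf : f ∈ I) :
    IsIdentity F (QA hI) f := by
  intro φ
  choose s hs using qmk_surj hI
  have e : φ = (qhom hI).comp (lift F (fun i => s (φ (of F i)))) := by
    refine hom_ext _ (fun i => ?_)
    rw [NonUnitalAlgHom.comp_apply, lift_of_apply, qhom_apply, hs]
  rw [e, NonUnitalAlgHom.comp_apply, qhom_eq_zero]
  exact hI.map _ _ hf

theorem sat_QA : Sat (QA (isTIdeal_tIdeal (S0 F))) :=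
  sat_of_identities fun _ hf => identity_QA _ (subset_tIdeal _ hf)

end

end

end Pool.Agent.H.MP_41922c_al
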