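import Pool.Agent.H.MP_41922c_al.Generic

/-!
# The two models of the octonion algebras
-/

set_option autoImplicit false
set_option linter.unusedSectionVars false

namespace Pool.Agent.H.MP_41922c_al

open FreeNonUnitalNonAssocAlgebra Quaternion

section

variable {F K : Type*} [CommRing F] [CommRing K] [Algebra F K] {ν β γ : K}

/-- one model to the other -/
def CD.toOct (F : Type*) {K : Type*} [CommRing F] [CommRing K] [Algebra F K] {ν β γ : K} :
    CD K ν β γ →ₙₐ[F] Oct K ν β γ where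
  toFun x := Oct.mk x.1.re x.1.imI x.1.imJ x.1.imK x.2.re x.2.imI x.2.imJ x.2.imK
  map_smul' k x := rfl
  map_zero' := rfl
  map_add' x y := rfl
  map_mul' x y := by
    refine Oct.ext8 ?_ ?_ ?_ ?_ ?_ ?_ ?_ ?_ <;>
      simp [CD.mul_fst, CD.mul_snd] <;> ring

/-- the other way -/
def CD.ofFun {K : Type*} [CommRing K] {ν β γ : K} (x : Oct K ν β γ) : CD K ν β γ :=
  ((⟨x.1.1.1, x.1.1.2, x.1.2.1, x.1.2.2⟩ : ℍ[K,-ν,1,β]),
    (⟨x.2.1.1, x.2.1.2, x.2.2.1, x.2.2.2⟩ : ℍ[K,-ν,1,β]))

/-- the other way -/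
def CD.ofOct (F : Type*) {K : Type*} [CommRing F] [CommRing K] [Algebra F K] {ν β γ : K} :
    Oct K ν β γ →ₙₐ[F] CD K ν β γ where
  toFun := CD.ofFun
  map_smul' k x := rfl
  map_zero' := rfl
  map_add' x y := rfl
  map_mul' x y := by
    have h := (CD.toOct F).map_mul (CD.ofFun x) (CD.ofFun y)
    exact congrArg CD.ofFun h.symm

theorem CD.toOct_injective : Function.Injective (CD.toOct F (K := K) (ν := ν) (β := β) (γ := γ)) := by
  intro x y h
  have e : ∀ z : CD K ν β γ, CD.ofOct F (CD.toOct F z) = z := fun z => rfl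
  rw [← e x, h, e]

theorem CD.ofOct_injective : Function.Injective (CD.ofOct F (K := K) (ν := ν) (β := β) (γ := γ)) := by
  intro x y h
  have e : ∀ z : Oct K ν β γ, CD.toOct F (CD.ofOct F z) = z := fun z => rfl
  rw [← e x, h, e]

theorem CD.isIdentity_iff (f : FreeNonUnitalNonAssocAlgebra F ℕ) :
    IsIdentity F (CD K ν β γ) f ↔ IsIdentity F (Oct K ν β γ) f :=
  ⟨fun h => h.of_injective (CD.ofOct F) CD.ofOct_injective,
    fun h => h.of_injective (CD.toOct F) CD.toOct_injective⟩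

end

end Pool.Agent.H.MP_41922c_al
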