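import Pool.Agent.H.MP_41922c_al.Struct

/-!
# Existence of a frame
-/

set_option autoImplicit false
set_option linter.unusedSectionVars false

namespace Pool.Agent.H.MP_41922c_al

section

variable {K B : Type*} [CommRing K] [NonAssocRing B] [Module K B] [IsScalarTower K B B]
  [SMulCommClass K B B]

theorem Quad.frame {t : B →ₗ[K] K} {n : B → K} (Q : Quad t n) {U V s : B} {δ : K}
    (tU : t U = 0) (tV : t V = 0) (hκ : IsUnit (t (U * V))) (hδ : IsUnit δ)
    (hD : (U * V - V * U) * (U * V - V * U) = δ • (1 : B)) (hn : IsUnit (n U))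
    (hl : IsUnit (n (associator U V s))) :
    ∃ w, Frame t n w U (associator U V s) := by
  obtain ⟨κ, hκ'⟩ := hκ
  have hκ1 : (↑κ⁻¹ : K) * t (U * V) = 1 := by rw [← hκ']; exact κ.inv_mul
  set i : K := (↑κ⁻¹ : K)
  have hUV : U * V + V * U = t (U * V) • (1 : B) := by
    rw [Q.circ', tU, tV, zero_smul, zero_smul, zero_mul, zero_sub, add_zero, zero_sub, neg_smul,
      neg_neg]
  have hVU : V * U = t (U * V) • (1 : B) - U * V := by rw [← hUV]; abel
  have hUU : U * U = -(n U • (1 : B)) := by rw [Q.sq, tU, zero_smul, zero_sub]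
  obtain ⟨w, hw⟩ : ∃ w : B, w = i • (U * V) := ⟨_, rfl⟩
  have tw : t w = 1 := by rw [hw, map_smul, smul_eq_mul, hκ1]
  have ww : w * w = w - n w • (1 : B) := by rw [Q.sq, tw, one_smul]
  have hUVw : U * V = t (U * V) • w := by
    rw [hw, smul_smul, mul_comm, hκ1, one_smul]
  have tS : t (associator U V s) = 0 := Q.t_associator _ _ _
  have tUS : t (U * associator U V s) = 0 := by
    rw [← Q.alt.assoc_mul_self]; exact Q.t_associator _ _ _
  have tVS : t (V * associator U V s) = 0 := by
    rw [Q.alt.swap12, mul_neg, ← Q.alt.assoc_mul_self, map_neg, Q.t_associator, neg_zero]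
  have tUVS : t ((U * V) * associator U V s) = 0 := by
    have e1 : associator (U * V) U V = 0 := by
      rw [Q.alt.swap12, Q.alt.assoc_self_mul, Q.alt.right, zero_mul, neg_zero]
    have e2 : ((U * V) * U) * V = (U * V) * (U * V) := sub_eq_zero.1 e1
    rw [associator, mul_sub, map_sub, Q.alt.left', ← Q.t_assoc (U * V) U (V * s),
      ← Q.t_assoc ((U * V) * U) V s, e2, sub_self]
  refine ⟨w, Q, tw, ?_, tU, ?_, hn, tS, ?_, tUS, ?_, hl⟩
  · have e1 : U * V - V * U = t (U * V) • ((2 : K) • w - 1) := by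
      have h3 : (2 : K) • (U * V) = (2 : K) • (t (U * V) • w) := congrArg ((2 : K) • ·) hUVw
      have h4 : U * V - (t (U * V) • (1 : B) - U * V) =
          (2 : K) • (U * V) - t (U * V) • (1 : B) := by module
      rw [hVU, h4, h3]
      module
    have e2 : ((2 : K) • w - 1) * ((2 : K) • w - 1) = (1 - 4 * n w) • (1 : B) := by
      simp only [sub_mul, mul_sub, smul_mul_assoc, mul_smul_comm, one_mul, mul_one, ww]
      module
    rw [e1, smul_mul_assoc, mul_smul_comm, e2, smul_smul, smul_smul] at hD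
    have e3 := Q.inj' hD
    rw [← e3] at hδ
    exact isUnit_of_mul_isUnit_right hδ
  · rw [hw, smul_mul_assoc, map_smul, Q.t_comm, Q.alt.left', hUU, neg_mul, smul_mul_assoc,
      one_mul, map_neg, map_smul, tV, smul_zero, neg_zero, smul_zero]
  · rw [hw, smul_mul_assoc, map_smul, tUVS, smul_zero]
  · have e1 : w * U = U + (i * n U) • V := by
      rw [hw, smul_mul_assoc, Q.alt.flex', hVU, mul_sub, mul_smul_comm, mul_one, Q.alt.left', hUU,
        neg_mul, smul_mul_assoc, one_mul, smul_sub, smul_smul, hκ1]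
      module
    rw [e1, add_mul, smul_mul_assoc, map_add, map_smul, tUS, tVS, smul_zero, add_zero]

end

end Pool.Agent.H.MP_41922c_al
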