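import Pool.Agent.H.MP_41922c_al.Main
import Pool.Agent.H.MP_41922c_al.Generic
import Pool.Agent.H.MP_41922c_al.FrameEx

/-!
# Vanishing after multiplication by the central polynomial
-/

set_option autoImplicit false
set_option linter.unusedSectionVars false

namespace Pool.Agent.H.MP_41922c_al

open FreeNonUnitalNonAssocAlgebra

attribute [local instance] iAXr iAXm iAXt iAXc iAXp iAXpt iAXpc iLBr iLBm iLBt iLBc

section abs

variable {F B : Type*} [Field F] [Infinite F] [NonAssocRing B] [Module F B]
  [IsScalarTower F B B] [SMulCommClass F B B]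

/-- the parametrisation by the octonion algebra -/
noncomputable def Frame.hom (F : Type*) {B : Type*} [Field F] [NonAssocRing B] [Module F B]
    [IsScalarTower F B B] [SMulCommClass F B B] {t : B →ₗ[Cen B] Cen B} {n : B → Cen B}
    {w U l : B} (W : Frame t n w U l) : Oct (Cen B) (n w) (-n U) (-n l) →ₙₐ[F] B where
  toFun := Frame.φO w U l (n w) (-n U) (-n l)
  map_smul' := fun k x => by
    have e : k • x = (algebraMap F (Cen B) k) • x := by
      refine Oct.ext8 ?_ ?_ ?_ ?_ ?_ ?_ ?_ ?_ <;> exact Algebra.smul_def _ _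
    rw [e, Frame.φO_smul, Cen.algebraMap_smul']
    rfl
  map_zero' := by
    have := Frame.φO_smul w U l (n w) (-n U) (-n l) 0 0
    rw [zero_smul, zero_smul] at this
    exact this
  map_add' := Frame.φO_add w U l (n w) (-n U) (-n l)
  map_mul' := W.φO_mul

theorem identity_of_frame {ν β γ : F} (hp : (1 - 4 * ν) * β * γ ≠ 0)
    {f : FreeNonUnitalNonAssocAlgebra F ℕ} (hf : IsIdentity F (Oct F ν β γ) f)
    {t : B →ₗ[Cen B] Cen B} {n : B → Cen B} {w U l : B} (W : Frame t n w U l) :
    IsIdentity F B f :=
  (Oct.identity_all hp hf (Cen B) (n w) (-n U) (-n l)).of_surjective (W.hom F) W.surj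

end abs

section vanish

variable {F A : Type*} [Field F] [Infinite F] [NonUnitalNonAssocRing A] [Module F A]
  [IsScalarTower F A A] [SMulCommClass F A A] (H : Sat A) (a b c d s : A)

theorem tK_com (x y : BB F H a b c d s) : tK (F := F) H a b c d s (com x y) = 0 := by
  rw [com, map_sub, (quad (F := F) H a b c d s).t_comm, sub_self]

theorem tK_pi (x : A) : tK (F := F) H a b c d s (pi (F := F) H a b c d s x) =
    di (F := F) H a b c d s * cen (F := F) (cc_mem H a b c d s) (H.ct a b c d x) := by
  rw [tK_apply]
  congr 1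
  ext
  exact tB_pi H a b c d s x

theorem nK_pi (x : A) : nK (F := F) H a b c d s (pi (F := F) H a b c d s x) =
    di (F := F) H a b c d s * cen (F := F) (cc_mem H a b c d s) (H.cn a b c d x) := by
  have h1 : toLB (F := F) (cc_mem H a b c d s) (nn a b c d x) =
      tB H a b c d s (toLB (F := F) (cc_mem H a b c d s) x) *
        toLB (F := F) (cc_mem H a b c d s) x - (dK (F := F) H a b c d s).val *
        (toLB (F := F) (cc_mem H a b c d s) x * toLB (F := F) (cc_mem H a b c d s) x) := by
    rw [nn, map_sub, map_mul, map_mul, map_mul]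
    congr 1
    rw [show tB H a b c d s (toLB (F := F) (cc_mem H a b c d s) x) = _ from
      tB_pi H a b c d s x]
  rw [nK]
  congr 1
  ext
  exact h1.symm

theorem hD : (pi (F := F) H a b c d s (com a b) * pi (F := F) H a b c d s (com c d) -
      pi (F := F) H a b c d s (com c d) * pi (F := F) H a b c d s (com a b)) *
      (pi (F := F) H a b c d s (com a b) * pi (F := F) H a b c d s (com c d) -
      pi (F := F) H a b c d s (com c d) * pi (F := F) H a b c d s (com a b)) =
      dK (F := F) H a b c d s • (1 : BB F H a b c d s) := by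
  rw [Cen.smul_one', dK_val, dd, dc, ← map_com, ← map_com]
  rfl

theorem frameK : ∃ w, Frame (tK (F := F) H a b c d s) (nK (F := F) H a b c d s) w
    (pi (F := F) H a b c d s (com a b))
    (associator (pi (F := F) H a b c d s (com a b)) (pi (F := F) H a b c d s (com c d))
      (pi (F := F) H a b c d s s)) := by
  obtain ⟨u1, u2, u3, u4⟩ := units (F := F) H a b c d s
  refine (quad (F := F) H a b c d s).frame ?_ ?_ ?_ u1 (hD H a b c d s) ?_ ?_
  · have h : pi (F := F) H a b c d s (com a b) = com (pi (F := F) H a b c d s a)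
      (pi (F := F) H a b c d s b) := map_com _ _ _
    rw [h]
    exact tK_com H a b c d s _ _
  · have h : pi (F := F) H a b c d s (com c d) = com (pi (F := F) H a b c d s c)
      (pi (F := F) H a b c d s d) := map_com _ _ _
    rw [h]
    exact tK_com H a b c d s _ _
  · have h : pi (F := F) H a b c d s (com a b) * pi (F := F) H a b c d s (com c d) =
      pi (F := F) H a b c d s (com a b * com c d) := (map_mul _ _ _).symm
    rw [h, tK_pi]
    exact (di_unit H a b c d s).mul u2
  · rw [nK_pi]
    exact (di_unit H a b c d s).mul u3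
  · have h : associator (pi (F := F) H a b c d s (com a b)) (pi (F := F) H a b c d s (com c d))
      (pi (F := F) H a b c d s s) = pi (F := F) H a b c d s (associator (com a b) (com c d) s) :=
      (map_associator _ _ _ _).symm
    rw [h, nK_pi]
    exact (di_unit H a b c d s).mul u4

theorem BB_identity {ν β γ : F} (hp : (1 - 4 * ν) * β * γ ≠ 0)
    {f : FreeNonUnitalNonAssocAlgebra F ℕ} (hf : IsIdentity F (Oct F ν β γ) f) :
    IsIdentity F (BB F H a b c d s) f := by
  obtain ⟨w, W⟩ := frameK (F := F) H a b c d s
  exact identity_of_frame hp hf W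

include H in
theorem vanish {ν β γ : F} (hp : (1 - 4 * ν) * β * γ ≠ 0)
    {f : FreeNonUnitalNonAssocAlgebra F ℕ} (hf : IsIdentity F (Oct F ν β γ) f)
    (φ : FreeNonUnitalNonAssocAlgebra F ℕ →ₙₐ[F] A) :
    ∃ k : ℕ, (fun x => cc a b c d s * x)^[k] (φ f) = 0 := by
  have h := BB_identity H a b c d s hp hf ((pi (F := F) H a b c d s).comp φ)
  rw [NonUnitalAlgHom.comp_apply] at h
  exact toLB_eq_zero _ h

end vanish

end Pool.Agent.H.MP_41922c_al
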