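import Pool.Agent.H.MP_41922c_al.OctS0
import Pool.Agent.H.MP_41922c_al.Transfer
import Pool.Agent.H.MP_41922c_al.TIdeal
import Pool.Agent.H.MP_41922c_al.Vanish

/-!
# The identities of the octonion algebras are saturated with respect to the central polynomial
-/

set_option autoImplicit false
set_option linter.unusedSectionVars false

namespace Pool.Agent.H.MP_41922c_al

open FreeNonUnitalNonAssocAlgebra

theorem map_iterate_mul {F A B : Type*} [CommRing F] [NonUnitalNonAssocRing A] [Module F A]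
    [NonUnitalNonAssocRing B] [Module F B] (φ : A →ₙₐ[F] B) (c : A) (k : ℕ) (x : A) :
    φ ((fun y => c * y)^[k] x) = (fun y => φ c * y)^[k] (φ x) := by
  induction k generalizing x with
  | zero => rfl
  | succ k ih => rw [Function.iterate_succ_apply, Function.iterate_succ_apply, ih, map_mul]

namespace Oct

theorem iterate_smul_e {K : Type*} [CommRing K] {ν β γ : K} (κ : K) (k : ℕ) (x : Oct K ν β γ) :
    (fun y => (κ • (e : Oct K ν β γ)) * y)^[k] x = κ ^ k • x := by
  induction k generalizing x with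
  | zero => rw [pow_zero, one_smul]; rfl
  | succ k ih =>
    rw [Function.iterate_succ_apply, ih, smul_mul', e_mul, smul_smul, pow_succ]

theorem smul_eq_zero' {K : Type*} [CommRing K] [IsDomain K] {ν β γ : K} {κ : K} (hκ : κ ≠ 0)
    {x : Oct K ν β γ} (h : κ • x = 0) : x = 0 := by
  have key : ∀ {a : K}, κ • a = 0 → a = 0 := fun {a} h =>
    (mul_eq_zero.1 (by rwa [smul_eq_mul] at h)).resolve_left hκ
  refine ext8 ?_ ?_ ?_ ?_ ?_ ?_ ?_ ?_
  · exact key (congrArg (fun z : Oct K ν β γ => z.1.1.1) h)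
  · exact key (congrArg (fun z : Oct K ν β γ => z.1.1.2) h)
  · exact key (congrArg (fun z : Oct K ν β γ => z.1.2.1) h)
  · exact key (congrArg (fun z : Oct K ν β γ => z.1.2.2) h)
  · exact key (congrArg (fun z : Oct K ν β γ => z.2.1.1) h)
  · exact key (congrArg (fun z : Oct K ν β γ => z.2.1.2) h)
  · exact key (congrArg (fun z : Oct K ν β γ => z.2.2.1) h)
  · exact key (congrArg (fun z : Oct K ν β γ => z.2.2.2) h)

variable {F : Type*} [Field F] [Infinite F] {ν β γ : F}

/-- If the product of `f` with a power of the central polynomial is an identity, then so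
is `f`. -/
theorem identity_of_iterate (h : (1 - 4 * ν) * β * γ ≠ 0)
    {f : FreeNonUnitalNonAssocAlgebra F ℕ} {k : ℕ}
    (hf : IsIdentity F (Oct F ν β γ)
      ((fun y => cc (of F 0) (of F 1) (of F 2) (of F 3) (of F 4) * y)^[k] f)) :
    IsIdentity F (Oct F ν β γ) f := by
  have hβ : β ≠ 0 := fun h0 => h (by rw [h0]; ring)
  have hγ : γ ≠ 0 := fun h0 => h (by rw [h0]; ring)
  have hν : 1 - 4 * ν ≠ 0 := fun h0 => h (by rw [h0]; ring)
  let x : ℕ → Oct (MvPolynomial (ℕ × Fin 8) F) (MvPolynomial.C ν) (MvPolynomial.C β)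
    (MvPolynomial.C γ) := fun i => mk8 (fun j => MvPolynomial.X (i, j))
  have hG : lift F x ((fun y => cc (of F 0) (of F 1) (of F 2) (of F 3) (of F 4) * y)^[k] f) =
      0 := by
    refine eq_zero_of_map _ fun ρ => ?_
    rw [← NonUnitalAlgHom.comp_apply]
    exact hf _
  rw [map_iterate_mul, map_cc] at hG
  simp only [lift_of_apply] at hG
  rw [cc_eq, iterate_smul_e] at hG
  have hκ : ((nm (dc (x 0) (x 1) (x 2) (x 3))) ^ 4 * tr (com (x 0) (x 1) * com (x 2) (x 3)) *
      nm (com (x 0) (x 1)) * nm (associator (com (x 0) (x 1)) (com (x 2) (x 3)) (x 4))) ≠ 0 := by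
    intro h0
    have h1 := cc_eq (x 0) (x 1) (x 2) (x 3) (x 4)
    rw [h0, zero_smul] at h1
    -- specialise
    let v : ℕ → Oct F ν β γ := fun i => if i = 0 then ew else if i = 1 then ej else
      if i = 2 then ew else if i = 3 then ewj else el
    let g : MvPolynomial (ℕ × Fin 8) F →ₐ[F] F := MvPolynomial.aeval (fun p => (v p.1).coord p.2)
    let m : Oct (MvPolynomial (ℕ × Fin 8) F) (MvPolynomial.C ν) (MvPolynomial.C β)
      (MvPolynomial.C γ) →ₙₐ[F] Oct F ν β γ := map g (by simp [g]) (by simp [g]) (by simp [g])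
    have hm : ∀ i, m (x i) = v i := by
      intro i
      refine ext8 ?_ ?_ ?_ ?_ ?_ ?_ ?_ ?_ <;> simp [m, map_apply, x, mk8, g, coord]
    have h2 := congrArg m h1
    rw [map_cc, map_zero, hm, hm, hm, hm, hm] at h2
    have h3 : cc (ew : Oct F ν β γ) ej ew ewj el = 0 := h2
    rw [cc_value] at h3
    have h4 := congrArg (fun z : Oct F ν β γ => z.1.1.1) h3
    simp at h4
    rcases h4 with (h4 | h4) | h4
    · exact hβ h4
    · exact hν h4
    · exact hγ h4
  have hf0 := smul_eq_zero' (pow_ne_zero k hκ) hG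
  intro φ
  let g : MvPolynomial (ℕ × Fin 8) F →ₐ[F] F :=
    MvPolynomial.aeval (fun p => (φ (of F p.1)).coord p.2)
  have e : φ = (map g (by simp [g]) (by simp [g]) (by simp [g]) :
      Oct (MvPolynomial (ℕ × Fin 8) F) (MvPolynomial.C ν) (MvPolynomial.C β)
      (MvPolynomial.C γ) →ₙₐ[F] Oct F ν β γ).comp (lift F x) := by
    refine hom_ext _ (fun i => ?_)
    rw [NonUnitalAlgHom.comp_apply, lift_of_apply, map_apply]
    refine ext8 ?_ ?_ ?_ ?_ ?_ ?_ ?_ ?_ <;> simp [x, mk8, g, coord]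
  rw [e, NonUnitalAlgHom.comp_apply, hf0, map_zero]

end Oct

variable {F : Type*} [Field F] [Infinite F] {ν β γ : F}

/-- The product of an identity of the octonions with a power of the central polynomial is a
consequence of the finite set. -/
theorem exists_iterate_mem (h : (1 - 4 * ν) * β * γ ≠ 0) {f : FreeNonUnitalNonAssocAlgebra F ℕ}
    (hf : IsIdentity F (Oct F ν β γ) f) (a b c d s : FreeNonUnitalNonAssocAlgebra F ℕ) :
    ∃ k : ℕ, (fun y => cc a b c d s * y)^[k] f ∈ tIdeal F (S0 F) := by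
  let q := qhom (F := F) (isTIdeal_tIdeal (S0 F))
  obtain ⟨k, hk⟩ := vanish (F := F) sat_QA (q a) (q b) (q c) (q d) (q s) h hf q
  refine ⟨k, ?_⟩
  rw [← qhom_eq_zero (isTIdeal_tIdeal (S0 F)), map_iterate_mul, map_cc]
  exact hk

/-- The exponent may be chosen uniformly. -/
theorem exists_iterate_mem' (h : (1 - 4 * ν) * β * γ ≠ 0) {f : FreeNonUnitalNonAssocAlgebra F ℕ}
    (hf : IsIdentity F (Oct F ν β γ) f) :
    ∃ k : ℕ, ∀ a b c d s : FreeNonUnitalNonAssocAlgebra F ℕ,
      (fun y => cc a b c d s * y)^[k] f ∈ tIdeal F (S0 F) := by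
  have hf' : IsIdentity F (Oct F ν β γ) (lift F (fun i => of F (i + 5)) f) :=
    (isTIdeal_identities (Oct F ν β γ)).map _ _ hf
  obtain ⟨k, hk⟩ := exists_iterate_mem h hf' (of F 0) (of F 1) (of F 2) (of F 3) (of F 4)
  refine ⟨k, fun a b c d s => ?_⟩
  let θ : FreeNonUnitalNonAssocAlgebra F ℕ →ₙₐ[F] FreeNonUnitalNonAssocAlgebra F ℕ :=
    lift F (fun i => if i = 0 then a else if i = 1 then b else if i = 2 then c else
      if i = 3 then d else if i = 4 then s else of F (i - 5))
  have h1 := (isTIdeal_tIdeal (S0 F)).map θ _ hk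
  have h2 : θ (lift F (fun i => of F (i + 5)) f) = f := by
    have e : θ.comp (lift F (fun i => of F (i + 5))) =
        NonUnitalAlgHom.id F (FreeNonUnitalNonAssocAlgebra F ℕ) := by
      refine hom_ext _ (fun i => ?_)
      rw [NonUnitalAlgHom.comp_apply, lift_of_apply]
      simp [θ, lift_of_apply]
    rw [← NonUnitalAlgHom.comp_apply, e]
    rfl
  rw [map_iterate_mul, map_cc, h2] at h1
  simpa [θ, lift_of_apply] using h1

theorem main_tfae (h : (1 - 4 * ν) * β * γ ≠ 0) (f : FreeNonUnitalNonAssocAlgebra F ℕ) :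
    List.TFAE [IsIdentity F (CD F ν β γ) f,
      ∃ k : ℕ, ∀ a b c d s : FreeNonUnitalNonAssocAlgebra F ℕ,
        (fun y => cc a b c d s * y)^[k] f ∈ tIdeal F (S0 F),
      ∃ k : ℕ, (fun y => cc (of F 0) (of F 1) (of F 2) (of F 3) (of F 4) * y)^[k] f ∈
        tIdeal F (S0 F)] := by
  tfae_have 1 → 2 := fun hf => exists_iterate_mem' h ((CD.isIdentity_iff f).1 hf)
  tfae_have 2 → 3 := fun ⟨k, hk⟩ => ⟨k, hk _ _ _ _ _⟩
  tfae_have 3 → 1 := fun ⟨k, hk⟩ => (CD.isIdentity_iff f).2 (Oct.identity_of_iterate h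
    (tIdeal_le (isTIdeal_identities (Oct F ν β γ)) (fun _ hg => Oct.S0_identity hg) hk))
  tfae_finish

end Pool.Agent.H.MP_41922c_al
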