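import Pool.Agent.H.MP_41922c_al.Cen

/-!
# Localisation of a nonassociative algebra at a central element
-/

set_option autoImplicit false
set_option linter.unusedSectionVars false

open Polynomial TensorProduct

namespace Pool.Agent.H.MP_41922c_al

/-- The algebra `A`, on which the variable of `F[X]` acts as multiplication by the central element
`c`. -/
@[nolint unusedArguments]
def AX (_F : Type*) {A : Type*} [NonUnitalNonAssocRing A] {c : A} (_ : c ∈ Set.center A) :
    Type _ := A

section

variable {F A : Type*} [CommRing F] [NonUnitalNonAssocRing A] [Module F A] [IsScalarTower F A A]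
  [SMulCommClass F A A] {c : A} (hc : c ∈ Set.center A)

/-- the ring structure -/
@[reducible] def iAXr : NonUnitalNonAssocRing (AX F hc) := inferInstanceAs (NonUnitalNonAssocRing A)

attribute [local instance] iAXr

/-- the scalars -/
@[reducible] def iAXm : Module F (AX F hc) := inferInstanceAs (Module F A)

attribute [local instance] iAXm

theorem iAXt : IsScalarTower F (AX F hc) (AX F hc) := inferInstanceAs (IsScalarTower F A A)

attribute [local instance] iAXt

theorem iAXc : SMulCommClass F (AX F hc) (AX F hc) := inferInstanceAs (SMulCommClass F A A)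

attribute [local instance] iAXc

/-- polynomials act -/
@[reducible] noncomputable def iAXp : Module F[X] (AX F hc) :=
  Module.compHom A (aeval (LinearMap.mulLeft F c) : F[X] →ₐ[F] Module.End F A).toRingHom

attribute [local instance] iAXp

/-- the identity map -/
def toAX (F : Type*) {A : Type*} [NonUnitalNonAssocRing A] {c : A} (hc : c ∈ Set.center A)
    (a : A) : AX F hc := a

theorem toAX_mul (a b : A) : toAX F hc (a * b) = toAX F hc a * toAX F hc b := rfl

theorem X_smul (a : AX F hc) : (X : F[X]) • a = toAX F hc c * a := by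
  show (aeval (LinearMap.mulLeft F c) (X : F[X]) : Module.End F A) a = _
  rw [aeval_X]
  rfl

theorem X_smul' (a : AX F hc) : (X : F[X]) • a = a * toAX F hc c := by
  rw [X_smul]
  exact hc.comm a

theorem C_smul (k : F) (a : AX F hc) : (C k : F[X]) • a = k • a := by
  show (aeval (LinearMap.mulLeft F c) (C k : F[X]) : Module.End F A) a = _
  rw [aeval_C]
  rfl

theorem iAXpt : IsScalarTower F[X] (AX F hc) (AX F hc) where
  smul_assoc p a b := by
    show (p • a) * b = p • (a * b)
    induction p using Polynomial.induction_on generalizing a with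
    | C k => rw [C_smul, C_smul, smul_mul_assoc]
    | add p q hp hq => rw [add_smul, add_smul, add_mul, hp, hq]
    | monomial n k h =>
      rw [pow_succ, ← mul_assoc, mul_smul (C k * X ^ n) X a, mul_smul (C k * X ^ n) X (a * b), h]
      congr 1
      rw [X_smul, X_smul]
      exact (hc.left_assoc a b).symm

attribute [local instance] iAXpt

theorem iAXpc : SMulCommClass F[X] (AX F hc) (AX F hc) where
  smul_comm p a b := by
    show p • (a * b) = a * (p • b)
    induction p using Polynomial.induction_on generalizing b with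
    | C k => rw [C_smul, C_smul, mul_smul_comm]
    | add p q hp hq => rw [add_smul, add_smul, mul_add, hp, hq]
    | monomial n k h =>
      rw [pow_succ, ← mul_assoc, mul_smul (C k * X ^ n) X b, mul_smul (C k * X ^ n) X (a * b),
        ← h]
      congr 1
      rw [X_smul', X_smul']
      exact hc.right_assoc a b

attribute [local instance] iAXpc

/-- the localisation `A[1/c]` -/
abbrev LB (F : Type*) {A : Type*} [CommRing F] [NonUnitalNonAssocRing A] [Module F A]
    [IsScalarTower F A A] [SMulCommClass F A A] {c : A} (hc : c ∈ Set.center A) : Type _ :=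
  Localization.Away (X : F[X]) ⊗[F[X]] AX F hc

/-- the inverse of the variable -/
noncomputable def iX (F : Type*) [CommRing F] : Localization.Away (X : F[X]) :=
  IsLocalization.Away.invSelf (X : F[X])

theorem iX_mul (F : Type*) [CommRing F] :
    algebraMap F[X] (Localization.Away (X : F[X])) X * iX F = 1 :=
  IsLocalization.Away.mul_invSelf _

theorem X_smul_iX (F : Type*) [CommRing F] : (X : F[X]) • iX F = 1 := by
  rw [Algebra.smul_def, iX_mul]

theorem X_smul_iX_mul (F : Type*) [CommRing F] (s : Localization.Away (X : F[X])) :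
    (X : F[X]) • (iX F * s) = s := by
  rw [← smul_mul_assoc, X_smul_iX, one_mul]

/-- the unit of the localisation -/
noncomputable def LBone : LB F hc := iX F ⊗ₜ[F[X]] toAX F hc c

theorem LBone_mul (x : LB F hc) : LBone hc * x = x := by
  induction x using TensorProduct.induction_on with
  | zero => exact mul_zero _
  | add x y hx hy => rw [mul_add, hx, hy]
  | tmul s a =>
    rw [LBone, Algebra.TensorProduct.tmul_mul_tmul, ← X_smul, ← smul_tmul, X_smul_iX_mul]

theorem mul_LBone (x : LB F hc) : x * LBone hc = x := by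
  induction x using TensorProduct.induction_on with
  | zero => exact zero_mul _
  | add x y hx hy => rw [add_mul, hx, hy]
  | tmul s a =>
    rw [LBone, Algebra.TensorProduct.tmul_mul_tmul, ← X_smul', ← smul_tmul, mul_comm s,
      X_smul_iX_mul]

/-- the ring structure of the localisation -/
@[reducible] noncomputable def iLBr : NonAssocRing (LB F hc) :=
  { (inferInstance : NonUnitalNonAssocRing (LB F hc)) with
    one := LBone hc
    one_mul := LBone_mul hc
    mul_one := mul_LBone hc }

attribute [local instance] iLBr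

theorem one_def : (1 : LB F hc) = iX F ⊗ₜ[F[X]] toAX F hc c := rfl

/-- the scalars of the localisation -/
@[reducible] noncomputable def iLBm : Module F (LB F hc) := inferInstance

attribute [local instance] iLBm

theorem iLBt : IsScalarTower F (LB F hc) (LB F hc) := inferInstance

attribute [local instance] iLBt

theorem iLBc : SMulCommClass F (LB F hc) (LB F hc) := inferInstance

attribute [local instance] iLBc

/-- the canonical homomorphism `A → A[1/c]` -/
noncomputable def toLB : A →ₙₐ[F] LB F hc where
  toFun a := 1 ⊗ₜ[F[X]] toAX F hc a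
  map_smul' k a := by
    show 1 ⊗ₜ[F[X]] (k • toAX F hc a) = k • (1 ⊗ₜ[F[X]] toAX F hc a)
    rw [← C_smul, ← smul_tmul, smul_tmul']
    congr 1
    rw [Algebra.smul_def, Algebra.smul_def, IsScalarTower.algebraMap_apply F F[X]]
    rfl
  map_zero' := tmul_zero _ _
  map_add' a b := tmul_add _ _ _
  map_mul' a b := by
    rw [Algebra.TensorProduct.tmul_mul_tmul, one_mul]
    rfl

theorem toLB_apply (a : A) : toLB (F := F) hc a = 1 ⊗ₜ[F[X]] toAX F hc a := rfl

theorem exists_pure (x : LB F hc) : ∃ (m : ℕ) (a : AX F hc), x = (iX F ^ m) ⊗ₜ[F[X]] a := by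
  have e : ∀ (m k : ℕ) (a : AX F hc), (iX F ^ m) ⊗ₜ[F[X]] a =
      (iX F ^ (m + k)) ⊗ₜ[F[X]] ((X : F[X]) ^ k • a) := by
    intro m k a
    rw [← smul_tmul]
    congr 1
    induction k with
    | zero => simp
    | succ k ih =>
      rw [pow_succ (X : F[X]), mul_smul, ← add_assoc, pow_succ (iX F), mul_comm _ (iX F),
        X_smul_iX_mul]
      exact ih
  induction x using TensorProduct.induction_on with
  | zero => exact ⟨0, 0, (tmul_zero _ _).symm⟩
  | tmul s a =>
    obtain ⟨n, r, hr⟩ := IsLocalization.Away.surj (X : F[X]) s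
    refine ⟨n, r • a, ?_⟩
    rw [← smul_tmul]
    congr 1
    rw [Algebra.smul_def, ← hr]
    have : (algebraMap F[X] (Localization.Away (X : F[X])) X) ^ n * iX F ^ n = 1 := by
      rw [← mul_pow, iX_mul, one_pow]
    rw [mul_assoc, this, mul_one]
  | add x y hx hy =>
    obtain ⟨m, a, rfl⟩ := hx
    obtain ⟨k, b, rfl⟩ := hy
    refine ⟨m + k, (X : F[X]) ^ k • a + (X : F[X]) ^ m • b, ?_⟩
    rw [tmul_add, ← e m k a, add_comm m k, ← e k m b]

theorem toLB_eq_zero {a : A} (h : toLB (F := F) hc a = 0) :
    ∃ k : ℕ, (fun x => c * x)^[k] a = 0 := by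
  have : IsLocalizedModule (Submonoid.powers (X : F[X]))
      (TensorProduct.mk F[X] (Localization.Away (X : F[X])) (AX F hc) 1) :=
    (isLocalizedModule_iff_isBaseChange (Submonoid.powers (X : F[X]))
      (Localization.Away (X : F[X])) _).2 (TensorProduct.isBaseChange _ _ _)
  have h1 : TensorProduct.mk F[X] (Localization.Away (X : F[X])) (AX F hc) 1 (toAX F hc a) = 0 := h
  rw [IsLocalizedModule.eq_zero_iff (Submonoid.powers (X : F[X]))] at h1
  obtain ⟨⟨_, k, rfl⟩, hk⟩ := h1
  refine ⟨k, ?_⟩
  have e : ∀ (k : ℕ) (b : A), (X : F[X]) ^ k • toAX F hc b = toAX F hc ((fun x => c * x)^[k] b) := by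
    intro k
    induction k with
    | zero => intro b; simp
    | succ k ih =>
      intro b
      rw [pow_succ, mul_smul, X_smul, ← toAX_mul, ih, Function.iterate_succ_apply]
  have h2 : (X : F[X]) ^ k • toAX F hc a = 0 := hk
  rw [e] at h2
  exact h2

theorem center_tmul {z : A} (hz : z ∈ Set.center A) (s : Localization.Away (X : F[X])) :
    s ⊗ₜ[F[X]] toAX F hc z ∈ Set.center (LB F hc) where
  comm x := by
    obtain ⟨m, a, rfl⟩ := exists_pure hc x
    show _ * _ = _ * _
    rw [Algebra.TensorProduct.tmul_mul_tmul, Algebra.TensorProduct.tmul_mul_tmul, mul_comm s]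
    congr 1
    exact hz.comm a
  left_assoc x y := by
    obtain ⟨m, a, rfl⟩ := exists_pure hc x
    obtain ⟨k, b, rfl⟩ := exists_pure hc y
    rw [Algebra.TensorProduct.tmul_mul_tmul, Algebra.TensorProduct.tmul_mul_tmul,
      Algebra.TensorProduct.tmul_mul_tmul, Algebra.TensorProduct.tmul_mul_tmul, mul_assoc]
    congr 1
    exact hz.left_assoc a b
  right_assoc x y := by
    obtain ⟨m, a, rfl⟩ := exists_pure hc x
    obtain ⟨k, b, rfl⟩ := exists_pure hc y
    rw [Algebra.TensorProduct.tmul_mul_tmul, Algebra.TensorProduct.tmul_mul_tmul,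
      Algebra.TensorProduct.tmul_mul_tmul, Algebra.TensorProduct.tmul_mul_tmul, mul_assoc]
    congr 1
    exact hz.right_assoc a b

theorem toLB_mem_center {z : A} (hz : z ∈ Set.center A) :
    toLB (F := F) hc z ∈ Set.center (LB F hc) := center_tmul hc hz 1

/-- the inverse of the image of `c` -/
noncomputable def invc : Cen (LB F hc) := ⟨(iX F ^ 2) ⊗ₜ[F[X]] toAX F hc c, center_tmul hc hc _⟩

/-- the image of a central element -/
noncomputable def cen {z : A} (hz : z ∈ Set.center A) : Cen (LB F hc) :=
  ⟨toLB (F := F) hc z, toLB_mem_center hc hz⟩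

theorem cen_mul_invc : cen (F := F) hc hc * invc hc = 1 := by
  ext
  show (1 ⊗ₜ[F[X]] toAX F hc c) * ((iX F ^ 2) ⊗ₜ[F[X]] toAX F hc c) = LBone hc
  rw [Algebra.TensorProduct.tmul_mul_tmul, one_mul, ← X_smul, ← smul_tmul, pow_two,
    X_smul_iX_mul]
  rfl

theorem isUnit_cen : IsUnit (cen (F := F) hc hc) := IsUnit.of_mul_eq_one _ (cen_mul_invc hc)

/-- Every element of the localisation is a central multiple of an element of `A`. -/
theorem exists_rep (x : LB F hc) : ∃ (κ : Cen (LB F hc)) (a : A), x = κ • toLB (F := F) hc a := by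
  obtain ⟨m, a, rfl⟩ := exists_pure hc x
  refine ⟨invc hc ^ m, a, ?_⟩
  have e : ∀ m : ℕ, (iX F ^ m) ⊗ₜ[F[X]] a = (invc hc ^ m : Cen (LB F hc)) •
      (1 ⊗ₜ[F[X]] a : LB F hc) := by
    intro m
    induction m with
    | zero => rw [pow_zero, pow_zero, one_smul]
    | succ m ih =>
      rw [pow_succ (invc hc), mul_comm, mul_smul, ← ih, Cen.smul_def]
      show _ = ((iX F ^ 2) ⊗ₜ[F[X]] toAX F hc c) * ((iX F ^ m) ⊗ₜ[F[X]] a)
      rw [Algebra.TensorProduct.tmul_mul_tmul, ← X_smul, ← smul_tmul, pow_two, mul_assoc,
        X_smul_iX_mul, pow_succ, mul_comm]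
  exact e m

end

end Pool.Agent.H.MP_41922c_al
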