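import Pool.Agent.H.MP_41922c_al.Quad
import Pool.Agent.H.MP_41922c_al.Defs

/-!
# A quadratic alternative algebra with enough units is an octonion algebra
-/

set_option autoImplicit false
set_option linter.unusedSectionVars false

namespace Pool.Agent.H.MP_41922c_al

section

variable {K B : Type*} [CommRing K] [NonAssocRing B] [Module K B] [IsScalarTower K B B]
  [SMulCommClass K B B]

/-- The projection property passes to the double. -/
theorem Quad.proj_dbl {t : B →ₗ[K] K} {n : B → K} (H : Quad t n) {P : Type*} {l : B} (φ : P → B) (hbar : ∀ p, ∃ q, φ q = Quad.conj t (φ p))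
    (hmul : ∀ p q, ∃ r, φ r = φ p * φ q) (hl : t l = 0) (hnl : IsUnit (n l))
    (horth : ∀ p, t (φ p * l) = 0)
    (hproj : ∀ x, ∃ a, ∀ c, t ((x - φ a) * φ c) = 0) (x : B) :
    ∃ a b, ∀ c d, t ((x - (φ a + φ b * l)) * (φ c + φ d * l)) = 0 := by
  obtain ⟨a, ha⟩ := hproj x
  obtain ⟨δ, hδ⟩ := hnl
  have hd : n l * (↑δ⁻¹ : K) = 1 := by rw [← hδ]; exact δ.mul_inv
  set e : K := (↑δ⁻¹ : K)
  obtain ⟨y, hy⟩ : ∃ y : B, y = x - φ a := ⟨_, rfl⟩
  rw [← hy] at ha
  obtain ⟨b, hb⟩ := hproj (-(e • (y * l)))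
  refine ⟨a, b, fun c d => ?_⟩
  have e0 : x - (φ a + φ b * l) = y - φ b * l := by rw [hy]; abel
  rw [e0, mul_add, sub_mul, sub_mul, map_add, map_sub, map_sub]
  -- first part
  have h1 : t (y * φ c) = 0 := ha c
  have h2 : t ((φ b * l) * φ c) = 0 := by
    rw [H.mul_l_mul' hl (horth c)]
    obtain ⟨c', hc'⟩ := hbar c
    rw [← hc']
    obtain ⟨r, hr⟩ := hmul b c'
    rw [← hr]
    exact horth r
  -- second part
  obtain ⟨d', hd'⟩ := hbar d
  have h3 : t (y * (φ d * l)) = t ((y * l) * φ d') := by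
    rw [H.mul_l_conj hl (horth d), ← hd', H.t_assoc]
  have h4 : (φ b * l) * (φ d * l) = -(n l • (Quad.conj t (φ d) * φ b)) := by
    refine H.mul_l_mul_l hl (horth b) ?_
    obtain ⟨b', hb'⟩ := hbar b
    rw [← hb']
    obtain ⟨r, hr⟩ := hmul b' d
    rw [← hr]
    exact horth r
  have h5 : t ((φ b * l) * (φ d * l)) = -(n l * t (φ b * φ d')) := by
    rw [h4, map_neg, map_smul, ← hd', H.t_comm, smul_eq_mul]
  have h6 := hb d'
  rw [sub_mul, map_sub, neg_mul, smul_mul_assoc, map_neg, map_smul, smul_eq_mul] at h6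
  rw [h1, h2, h3, h5]
  linear_combination (-n l) * h6 - t ((y * l) * φ d') * hd

/-- The data of three successive doublings. -/
structure Frame (t : B →ₗ[K] K) (n : B → K) (w u l : B) : Prop extends Quad t n where
  tw : t w = 1
  dw : IsUnit (1 - 4 * n w)
  tu : t u = 0
  twu : t (w * u) = 0
  nu : IsUnit (n u)
  tl : t l = 0
  twl : t (w * l) = 0
  tul : t (u * l) = 0
  twul : t ((w * u) * l) = 0
  nl : IsUnit (n l)

namespace Frame

variable {t : B →ₗ[K] K} {n : B → K} {w u l : B} (H : Frame t n w u l)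

/-- `E → B` -/
def φE (w : B) (ν : K) (x : QE K ν) : B := x.1 • (1 : B) + x.2 • w

/-- `Q → B` -/
def φQ (w u : B) (ν β : K) (x : QQ K ν β) : B := φE w ν x.1 + φE w ν x.2 * u

/-- `O → B` -/
def φO (w u l : B) (ν β γ : K) (x : Oct K ν β γ) : B := φQ w u ν β x.1 + φQ w u ν β x.2 * l

theorem φE_add (w : B) (ν : K) (x y : QE K ν) : φE w ν (x + y) = φE w ν x + φE w ν y := by
  simp only [φE, QE.add_1, QE.add_2]; module

theorem φE_neg (w : B) (ν : K) (x : QE K ν) : φE w ν (-x) = -φE w ν x := by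
  simp only [φE, QE.neg_1, QE.neg_2]; module

theorem φE_smul (w : B) (ν : K) (k : K) (x : QE K ν) : φE w ν (k • x) = k • φE w ν x := by
  simp only [φE, QE.smul_1, QE.smul_2, smul_eq_mul]; module

theorem φQ_add (w u : B) (ν β : K) (x y : QQ K ν β) :
    φQ w u ν β (x + y) = φQ w u ν β x + φQ w u ν β y := by
  simp only [φQ, QQ.add_1, QQ.add_2, φE_add, add_mul]; abel

theorem φQ_neg (w u : B) (ν β : K) (x : QQ K ν β) : φQ w u ν β (-x) = -φQ w u ν β x := by
  simp only [φQ, QQ.neg_1, QQ.neg_2, φE_neg, neg_mul]; abel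

theorem φQ_smul (w u : B) (ν β : K) (k : K) (x : QQ K ν β) :
    φQ w u ν β (k • x) = k • φQ w u ν β x := by
  simp only [φQ, QQ.smul_1, QQ.smul_2, φE_smul, smul_mul_assoc, smul_add]

theorem φO_add (w u l : B) (ν β γ : K) (x y : Oct K ν β γ) :
    φO w u l ν β γ (x + y) = φO w u l ν β γ x + φO w u l ν β γ y := by
  simp only [φO, Oct.add_1, Oct.add_2, φQ_add, add_mul]; abel

theorem φO_smul (w u l : B) (ν β γ : K) (k : K) (x : Oct K ν β γ) :
    φO w u l ν β γ (k • x) = k • φO w u l ν β γ x := by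
  simp only [φO, Oct.smul_1, Oct.smul_2, φQ_smul, smul_mul_assoc, smul_add]

include H

theorem w_sq : w * w = w - n w • (1 : B) := by
  rw [H.sq, H.tw, one_smul]

theorem φE_mul (x y : QE K (n w)) : φE w (n w) (x * y) = φE w (n w) x * φE w (n w) y := by
  simp only [φE, QE.mul_1, QE.mul_2, add_mul, mul_add, smul_mul_assoc, mul_smul_comm, one_mul,
    mul_one, H.w_sq]
  module

theorem φE_bar (x : QE K (n w)) : φE w (n w) x.bar = Quad.conj t (φE w (n w) x) := by
  simp only [φE, QE.bar_1, QE.bar_2, Quad.conj, map_add, map_smul, H.one, H.tw, smul_eq_mul]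
  module

theorem tE (x : QE K (n w)) : t (φE w (n w) x * u) = 0 := by
  simp only [φE, add_mul, smul_mul_assoc, one_mul, map_add, map_smul, H.tu, H.twu, smul_zero,
    add_zero]

theorem φQ_mul (x y : QQ K (n w) (-n u)) : φQ w u (n w) (-n u) (x * y) =
    φQ w u (n w) (-n u) x * φQ w u (n w) (-n u) y := by
  have h := H.toQuad.dbl H.tu (a := φE w (n w) x.1) (b := φE w (n w) x.2) (c := φE w (n w) y.1)
    (d := φE w (n w) y.2) (H.tE _) (H.tE _) (H.tE _) (H.tE _)
    (by rw [← H.φE_mul]; exact H.tE _) (by rw [← H.φE_bar, ← H.φE_mul]; exact H.tE _)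
  simp only [φQ]
  rw [h, QQ.mul_1, QQ.mul_2, φE_add, φE_add, φE_smul, H.φE_mul, H.φE_mul, H.φE_mul, H.φE_mul,
    H.φE_bar, H.φE_bar]
  module

theorem φQ_bar (x : QQ K (n w) (-n u)) : φQ w u (n w) (-n u) x.bar =
    Quad.conj t (φQ w u (n w) (-n u) x) := by
  simp only [φQ]
  rw [H.toQuad.conj_dbl H.tu (H.tE _), QQ.bar_1, QQ.bar_2, H.φE_bar, φE_neg, neg_mul]
  abel

theorem tQ (x : QQ K (n w) (-n u)) : t (φQ w u (n w) (-n u) x * l) = 0 := by
  simp only [φQ, φE, add_mul, smul_mul_assoc, one_mul, map_add, map_smul, H.tl, H.twl, H.tul,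
    H.twul, smul_zero, add_zero]

theorem φO_mul (x y : Oct K (n w) (-n u) (-n l)) : φO w u l (n w) (-n u) (-n l) (x * y) =
    φO w u l (n w) (-n u) (-n l) x * φO w u l (n w) (-n u) (-n l) y := by
  have h := H.toQuad.dbl H.tl (a := φQ w u (n w) (-n u) x.1) (b := φQ w u (n w) (-n u) x.2)
    (c := φQ w u (n w) (-n u) y.1) (d := φQ w u (n w) (-n u) y.2) (H.tQ _) (H.tQ _) (H.tQ _)
    (H.tQ _) (by rw [← H.φQ_mul]; exact H.tQ _) (by rw [← H.φQ_bar, ← H.φQ_mul]; exact H.tQ _)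
  simp only [φO]
  rw [h, Oct.mul_1, Oct.mul_2, φQ_add, φQ_add, φQ_smul, H.φQ_mul, H.φQ_mul, H.φQ_mul, H.φQ_mul,
    H.φQ_bar, H.φQ_bar]
  module

theorem φO_bar (x : Oct K (n w) (-n u) (-n l)) : φO w u l (n w) (-n u) (-n l) x.bar =
    Quad.conj t (φO w u l (n w) (-n u) (-n l) x) := by
  simp only [φO]
  rw [H.toQuad.conj_dbl H.tl (H.tQ _), Oct.bar_1, Oct.bar_2, H.φQ_bar, φQ_neg, neg_mul]
  abel

/-! ### projections -/

theorem projE (x : B) : ∃ a : QE K (n w), ∀ c : QE K (n w),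
    t ((x - φE w (n w) a) * φE w (n w) c) = 0 := by
  obtain ⟨δ, hδ⟩ := H.dw
  have hd : (1 - 4 * n w) * (↑δ⁻¹ : K) = 1 := by rw [← hδ]; exact δ.mul_inv
  set e : K := (↑δ⁻¹ : K)
  let a₁ : K := e * ((1 - 2 * n w) * t x - t (x * w))
  let a₂ : K := e * (2 * t (x * w) - t x)
  refine ⟨((a₁, a₂) : K × K), fun c => ?_⟩
  have h1 : φE w (n w) ((a₁, a₂) : K × K) = a₁ • (1 : B) + a₂ • w := rfl
  rw [h1]
  simp only [φE, mul_add, sub_mul, mul_smul_comm, smul_mul_assoc, mul_one, one_mul, add_mul,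
    map_add, map_sub, map_smul, H.w_sq, H.tw, H.one, smul_eq_mul]
  simp only [a₁, a₂]
  linear_combination (-(c.1 * t x) - c.2 * t (x * w)) * hd

theorem projQ (x : B) : ∃ a : QQ K (n w) (-n u), ∀ c : QQ K (n w) (-n u),
    t ((x - φQ w u (n w) (-n u) a) * φQ w u (n w) (-n u) c) = 0 := by
  obtain ⟨a, b, h⟩ := H.toQuad.proj_dbl (l := u) (φE w (n w)) (fun p => ⟨p.bar, H.φE_bar p⟩)
    (fun p q => ⟨p * q, H.φE_mul p q⟩) H.tu H.nu H.tE H.projE x
  exact ⟨(a, b), fun c => h c.1 c.2⟩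

theorem projO (x : B) : ∃ a : Oct K (n w) (-n u) (-n l), ∀ c : Oct K (n w) (-n u) (-n l),
    t ((x - φO w u l (n w) (-n u) (-n l) a) * φO w u l (n w) (-n u) (-n l) c) = 0 := by
  obtain ⟨a, b, h⟩ := H.toQuad.proj_dbl (l := l) (φQ w u (n w) (-n u)) (fun p => ⟨p.bar, H.φQ_bar p⟩)
    (fun p q => ⟨p * q, H.φQ_mul p q⟩) H.tl H.nl H.tQ H.projQ x
  exact ⟨(a, b), fun c => h c.1 c.2⟩

/-! ### the orthogonal complement of the octonion subalgebra is zero -/

theorem φO_one : φO w u l (n w) (-n u) (-n l) ((((1, 0), 0), 0) : Oct K (n w) (-n u) (-n l)) =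
    (1 : B) := by
  simp only [φO, φQ, φE, QQ.zero_1, QQ.zero_2, QE.zero_1, QE.zero_2, zero_smul, add_zero,
    zero_mul, one_smul]

theorem φO_w : φO w u l (n w) (-n u) (-n l) ((((0, 1), 0), 0) : Oct K (n w) (-n u) (-n l)) =
    w := by
  simp only [φO, φQ, φE, QQ.zero_1, QQ.zero_2, QE.zero_1, QE.zero_2, zero_smul, add_zero,
    zero_mul, one_smul, zero_add]

theorem φO_u : φO w u l (n w) (-n u) (-n l) (((0, (1, 0)), 0) : Oct K (n w) (-n u) (-n l)) =
    u := by
  simp only [φO, φQ, φE, QQ.zero_1, QQ.zero_2, QE.zero_1, QE.zero_2, zero_smul, add_zero,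
    zero_mul, one_smul, zero_add, one_mul]

theorem φO_l : φO w u l (n w) (-n u) (-n l) ((0, ((1, 0), 0)) : Oct K (n w) (-n u) (-n l)) =
    l := by
  simp only [φO, φQ, φE, QQ.zero_1, QQ.zero_2, QE.zero_1, QE.zero_2, zero_smul, add_zero,
    zero_mul, one_smul, zero_add, one_mul]

theorem assoc_mul_perp {z : B} (hz : ∀ c, t (φO w u l (n w) (-n u) (-n l) c * z) = 0)
    (a b c : Oct K (n w) (-n u) (-n l)) :
    associator (φO w u l (n w) (-n u) (-n l) b) (φO w u l (n w) (-n u) (-n l) a)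
      (φO w u l (n w) (-n u) (-n l) c) * z = 0 := by
  set φ := φO w u l (n w) (-n u) (-n l) with hφ
  have hm : ∀ x y, φ (x * y) = φ x * φ y := H.φO_mul
  have tz : t z = 0 := by
    have := hz ((((1, 0), 0), 0) : Oct K (n w) (-n u) (-n l))
    rw [hφ, H.φO_one, one_mul] at this
    exact this
  have h1 : ∀ a b, φ a * (φ b * z) = φ (b * a) * z := by
    intro a b
    rw [hm]
    exact H.toQuad.mul_mul_l tz (hz a) (hz b) (by rw [← hm]; exact hz _)
  have tb : t (φ b * z) = 0 := hz b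
  have h2 : ∀ x, t (φ x * (φ b * z)) = 0 := by
    intro x
    rw [h1]
    exact hz _
  have h3 : φ c * (φ a * (φ b * z)) = φ (a * c) * (φ b * z) := by
    rw [hm]
    exact H.toQuad.mul_mul_l tb (h2 c) (h2 a) (by rw [← hm]; exact h2 _)
  rw [h1 a b, h1 c, h1, hm, hm, hm, hm] at h3
  rw [associator, sub_mul, h3, sub_self]

theorem perp_zero {z : B} (hz : ∀ c, t (φO w u l (n w) (-n u) (-n l) c * z) = 0) : z = 0 := by
  have h := H.assoc_mul_perp hz ((0, (1, 0)), 0) (((0, 1), 0), 0) (0, ((1, 0), 0))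
  rw [H.φO_w, H.φO_u, H.φO_l] at h
  have huw : u * w = Quad.conj t w * u := H.toQuad.l_mul H.tu H.twu
  have e0 : Quad.conj t w = 1 - w := by rw [Quad.conj, H.tw, one_smul]
  rw [e0, sub_mul, one_mul] at huw
  have tuwl : t ((u * w) * l) = 0 := by
    rw [huw, sub_mul, map_sub, H.tul, H.twul, sub_zero]
  have h1 : w * (u * l) = (u * w) * l := H.toQuad.mul_mul_l H.tl H.twl H.tul tuwl
  obtain ⟨e, he⟩ : ∃ e : B, e = (2 : K) • w - 1 := ⟨_, rfl⟩
  obtain ⟨q, hq⟩ : ∃ q : B, q = e * u := ⟨_, rfl⟩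
  obtain ⟨y, hy⟩ : ∃ y : B, y = q * l := ⟨_, rfl⟩
  have h2 : associator w u l = y := by
    rw [associator, h1, huw, hy, hq, he, ← sub_mul]
    congr 1
    rw [sub_mul, smul_mul_assoc, one_mul, two_smul]
    abel
  rw [h2] at h
  -- traces
  have tq : t q = 0 := by
    rw [hq, he, sub_mul, smul_mul_assoc, one_mul, map_sub, map_smul, H.twu, H.tu]; simp
  have te : t e = 0 := by
    rw [he, map_sub, map_smul, H.tw, H.one]; simp
  have tql : t (q * l) = 0 := by
    rw [hq, he, sub_mul, smul_mul_assoc, one_mul, sub_mul, smul_mul_assoc, map_sub, map_smul,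
      H.twul, H.tul]; simp
  have ty : t y = 0 := by rw [hy]; exact tql
  -- norms
  have ne : n e = -(1 - 4 * n w) := by
    refine H.toQuad.inj' ?_
    have h3 := H.sq e
    rw [te, zero_smul, zero_sub] at h3
    have h4 : n e • (1 : B) = -(e * e) := by rw [h3, neg_neg]
    rw [h4, he]
    simp only [sub_mul, mul_sub, smul_mul_assoc, mul_smul_comm, one_mul, mul_one, H.w_sq]
    module
  have cq : Quad.conj t q * q = n q • (1 : B) := H.toQuad.conj_mul_self q
  have nq : n q = n u * n e := by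
    refine H.toQuad.inj' ?_
    have h3 := H.sq q
    rw [tq, zero_smul, zero_sub] at h3
    have heu : t (e * u) = 0 := by rw [← hq]; exact tq
    have h5 := H.toQuad.mul_l_mul_l H.tu (a := e) (b := e) heu (by
      rw [H.toQuad.conj_mul_self, smul_mul_assoc, one_mul, map_smul, H.tu, smul_zero])
    rw [← hq, H.toQuad.conj_mul_self, h3, smul_smul] at h5
    exact neg_injective h5
  have ny : n y = n l * n q := by
    refine H.toQuad.inj' ?_
    have h3 := H.sq y
    rw [ty, zero_smul, zero_sub] at h3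
    have h5 := H.toQuad.mul_l_mul_l H.tl (a := q) (b := q) tql (by
      rw [H.toQuad.conj_mul_self, smul_mul_assoc, one_mul, map_smul, H.tl, smul_zero])
    rw [← hy, H.toQuad.conj_mul_self, h3, smul_smul] at h5
    exact neg_injective h5
  have hu : IsUnit (n y) := by
    rw [ny, nq, ne]
    exact H.nl.mul (H.nu.mul H.dw.neg)
  have h6 : n y • z = 0 := by
    rw [← H.toQuad.conj_mul_left, h, mul_zero]
  obtain ⟨δ, hδ⟩ := hu
  have h7 : (↑δ⁻¹ : K) • (n y • z) = z := by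
    rw [smul_smul, ← hδ, Units.inv_mul, one_smul]
  rw [← h7, h6, smul_zero]

theorem surj (x : B) : ∃ a, φO w u l (n w) (-n u) (-n l) a = x := by
  obtain ⟨a, ha⟩ := H.projO x
  refine ⟨a, ?_⟩
  have : x - φO w u l (n w) (-n u) (-n l) a = 0 := by
    refine H.perp_zero fun c => ?_
    rw [H.toQuad.t_comm]
    exact ha c
  exact (sub_eq_zero.1 this).symm

end Frame

end

end Pool.Agent.H.MP_41922c_al
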