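import Pool.Agent.H.MP_41922c_al.Stmt
import Pool.Agent.H.MP_41922c_al.Loc
import Pool.Agent.H.MP_41922c_al.Struct

/-!
# Algebras satisfying the finite set of identities, localised at the central polynomial
-/

set_option autoImplicit false
set_option linter.unusedSectionVars false

namespace Pool.Agent.H.MP_41922c_al

open FreeNonUnitalNonAssocAlgebra

attribute [local instance] iAXr iAXm iAXt iAXc iAXp iAXpt iAXpc iLBr iLBm iLBt iLBc

/-- `A` is alternative and `δ`, `τ(x)`, `ν(x)` are central. -/
structure Sat (A : Type*) [NonUnitalNonAssocRing A] : Prop where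
  alt : IsAlt A
  cd : ∀ a b c d : A, dd a b c d ∈ Set.center A
  ct : ∀ a b c d x : A, tau a b c d x ∈ Set.center A
  cn : ∀ a b c d x : A, nn a b c d x ∈ Set.center A

section hom

variable {F A B : Type*} [CommRing F] [NonUnitalNonAssocRing A] [Module F A]
  [NonUnitalNonAssocRing B] [Module F B] (φ : A →ₙₐ[F] B)

theorem map_com (a b : A) : φ (com a b) = com (φ a) (φ b) := by
  simp only [com, map_sub, map_mul]

theorem map_associator (a b c : A) : φ (associator a b c) = associator (φ a) (φ b) (φ c) := by
  simp only [associator, map_sub, map_mul]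

theorem map_dd (a b c d : A) : φ (dd a b c d) = dd (φ a) (φ b) (φ c) (φ d) := by
  simp only [dd, dc, map_com, map_mul]

theorem map_tau (a b c d x : A) : φ (tau a b c d x) = tau (φ a) (φ b) (φ c) (φ d) (φ x) := by
  simp only [tau, dc, map_com, map_mul, map_add]

theorem map_nn (a b c d x : A) : φ (nn a b c d x) = nn (φ a) (φ b) (φ c) (φ d) (φ x) := by
  simp only [nn, map_dd, map_tau, map_mul, map_sub]

theorem map_cc (a b c d s : A) : φ (cc a b c d s) = cc (φ a) (φ b) (φ c) (φ d) (φ s) := by
  simp only [cc, map_dd, map_tau, map_nn, map_mul, map_com, map_associator]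

end hom

theorem IsAlt.mem_center {A : Type*} [NonUnitalNonAssocRing A] (H : IsAlt A) {z : A}
    (h1 : ∀ x, com z x = 0) (h2 : ∀ x y, associator z x y = 0) : z ∈ Set.center A where
  comm a := sub_eq_zero.1 (h1 a)
  left_assoc a b := (sub_eq_zero.1 (h2 a b)).symm
  right_assoc a b := by
    have h := h2 a b
    rw [H.cyc] at h
    exact sub_eq_zero.1 h

theorem sat_of_identities {F A : Type*} [CommRing F] [NonUnitalNonAssocRing A] [Module F A]
    [IsScalarTower F A A] [SMulCommClass F A A] (h : ∀ f ∈ S0 F, IsIdentity F A f) : Sat A := by
  have key : ∀ (f : FreeNonUnitalNonAssocAlgebra F ℕ), f ∈ S0 F → ∀ y : ℕ → A,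
      lift F y f = 0 := fun f hf y => h f hf _
  have alt : IsAlt A := by
    refine ⟨fun x y => ?_, fun x y => ?_⟩
    · have := key _ (by simp only [S0, Set.mem_insert_iff]; left; rfl)
        (fun i => if i = 0 then x else y)
      simpa [map_associator] using this
    · have := key _ (by simp only [S0, Set.mem_insert_iff]; right; left; rfl)
        (fun i => if i = 0 then x else y)
      simpa [map_associator] using this
  refine ⟨alt, fun a b c d => ?_, fun a b c d x => ?_, fun a b c d x => ?_⟩
  · refine alt.mem_center (fun y => ?_) (fun y z => ?_)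
    · have := key _ (by simp only [S0, Set.mem_insert_iff]; right; right; left; rfl)
        (fun i => if i = 0 then a else if i = 1 then b else if i = 2 then c else
          if i = 3 then d else y)
      simpa [map_com, map_dd] using this
    · have := key _ (by simp only [S0, Set.mem_insert_iff]; right; right; right; left; rfl)
        (fun i => if i = 0 then a else if i = 1 then b else if i = 2 then c else
          if i = 3 then d else if i = 5 then y else z)
      simpa [map_associator, map_dd] using this
  · refine alt.mem_center (fun y => ?_) (fun y z => ?_)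
    · have := key _ (by simp only [S0, Set.mem_insert_iff]; right; right; right; right; left; rfl)
        (fun i => if i = 0 then a else if i = 1 then b else if i = 2 then c else
          if i = 3 then d else if i = 4 then x else y)
      simpa [map_com, map_tau] using this
    · have := key _ (by simp only [S0, Set.mem_insert_iff]; right; right; right; right; right; left; rfl)
        (fun i => if i = 0 then a else if i = 1 then b else if i = 2 then c else
          if i = 3 then d else if i = 4 then x else if i = 5 then y else z)
      simpa [map_associator, map_tau] using this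
  · refine alt.mem_center (fun y => ?_) (fun y z => ?_)
    · have := key _ (by
        simp only [S0, Set.mem_insert_iff]; right; right; right; right; right; right; left; rfl)
        (fun i => if i = 0 then a else if i = 1 then b else if i = 2 then c else
          if i = 3 then d else if i = 4 then x else y)
      simpa [map_com, map_nn] using this
    · have := key _ (by
        simp only [S0, Set.mem_insert_iff, Set.mem_singleton_iff]; right; right; right; right
        right; right; right; rfl)
        (fun i => if i = 0 then a else if i = 1 then b else if i = 2 then c else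
          if i = 3 then d else if i = 4 then x else if i = 5 then y else z)
      simpa [map_associator, map_nn] using this

section main

variable {F A : Type*} [CommRing F] [NonUnitalNonAssocRing A] [Module F A] [IsScalarTower F A A]
  [SMulCommClass F A A] (H : Sat A) (a b c d s : A)

include H in
theorem cc_mem : cc a b c d s ∈ Set.center A :=
  Set.mul_mem_center (H.cd _ _ _ _) (Set.mul_mem_center (H.ct _ _ _ _ _)
    (Set.mul_mem_center (H.cn _ _ _ _ _) (H.cn _ _ _ _ _)))

/-- the localisation at the value of the central polynomial -/
abbrev BB (F : Type*) {A : Type*} [CommRing F] [NonUnitalNonAssocRing A] [Module F A]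
    [IsScalarTower F A A] [SMulCommClass F A A] (H : Sat A) (a b c d s : A) : Type _ :=
  LB F (cc_mem H a b c d s)

/-- the canonical map -/
noncomputable abbrev pi : A →ₙₐ[F] BB F H a b c d s := toLB (F := F) (cc_mem H a b c d s)

theorem BB_alt : IsAlt (BB F H a b c d s) where
  left x y := by
    obtain ⟨κ, x', rfl⟩ := exists_rep _ x
    obtain ⟨l, y', rfl⟩ := exists_rep _ y
    have h := congrArg (pi (F := F) H a b c d s) (H.alt.left x' y')
    rw [map_associator, map_zero, associator] at h
    simp only [associator, smul_mul_assoc, mul_smul_comm]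
    simp only [← smul_sub]
    rw [h, smul_zero, smul_zero, smul_zero]
  right x y := by
    obtain ⟨κ, x', rfl⟩ := exists_rep _ x
    obtain ⟨l, y', rfl⟩ := exists_rep _ y
    have h := congrArg (pi (F := F) H a b c d s) (H.alt.right x' y')
    rw [map_associator, map_zero, associator] at h
    simp only [associator, smul_mul_assoc, mul_smul_comm]
    simp only [← smul_sub]
    rw [h, smul_zero, smul_zero, smul_zero]

/-- `τ` on the localisation -/
noncomputable def tB (x : BB F H a b c d s) : BB F H a b c d s :=
  tau (pi (F := F) H a b c d s a) (pi (F := F) H a b c d s b) (pi (F := F) H a b c d s c)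
    (pi (F := F) H a b c d s d) x

/-- `δ` in the localisation -/
noncomputable def dK : Cen (BB F H a b c d s) := cen (F := F) _ (H.cd a b c d)

theorem dK_val : (dK (F := F) H a b c d s).val = dd (pi (F := F) H a b c d s a)
    (pi (F := F) H a b c d s b) (pi (F := F) H a b c d s c) (pi (F := F) H a b c d s d) :=
  map_dd _ _ _ _ _

theorem tB_add (x y : BB F H a b c d s) :
    tB H a b c d s (x + y) = tB H a b c d s x + tB H a b c d s y := by
  simp only [tB, tau, com, add_mul, mul_add, sub_mul, mul_sub]
  abel

theorem tB_smul (κ : Cen (BB F H a b c d s)) (x : BB F H a b c d s) :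
    tB H a b c d s (κ • x) = κ • tB H a b c d s x := by
  simp only [tB, tau, com, add_mul, mul_add, sub_mul, mul_sub, smul_mul_assoc, mul_smul_comm,
    smul_add, smul_sub]

theorem tB_pi (x : A) : tB H a b c d s (pi (F := F) H a b c d s x) =
    pi (F := F) H a b c d s (tau a b c d x) := (map_tau _ _ _ _ _ _).symm

theorem tB_mem (x : BB F H a b c d s) : tB H a b c d s x ∈ Set.center (BB F H a b c d s) := by
  obtain ⟨κ, x', rfl⟩ := exists_rep _ x
  rw [tB_smul, Cen.smul_def]
  refine Set.mul_mem_center κ.2 ?_
  rw [show tB H a b c d s (toLB (F := F) (cc_mem H a b c d s) x') = _ from tB_pi H a b c d s x']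
  exact toLB_mem_center _ (H.ct _ _ _ _ _)

theorem nB_mem (x : BB F H a b c d s) : tB H a b c d s x * x -
    (dK (F := F) H a b c d s).val * (x * x) ∈ Set.center (BB F H a b c d s) := by
  obtain ⟨κ, x', rfl⟩ := exists_rep _ x
  have e : tB H a b c d s (κ • toLB (F := F) (cc_mem H a b c d s) x') *
      (κ • toLB (F := F) (cc_mem H a b c d s) x') - (dK (F := F) H a b c d s).val *
      ((κ • toLB (F := F) (cc_mem H a b c d s) x') * (κ • toLB (F := F) (cc_mem H a b c d s) x')) =
      (κ * κ).val * toLB (F := F) (cc_mem H a b c d s) (nn a b c d x') := by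
    have h1 : toLB (F := F) (cc_mem H a b c d s) (nn a b c d x') =
        tB H a b c d s (toLB (F := F) (cc_mem H a b c d s) x') *
          toLB (F := F) (cc_mem H a b c d s) x' - (dK (F := F) H a b c d s).val *
          (toLB (F := F) (cc_mem H a b c d s) x' * toLB (F := F) (cc_mem H a b c d s) x') := by
      rw [nn, map_sub, map_mul, map_mul, map_mul]
      congr 1
      rw [show tB H a b c d s (toLB (F := F) (cc_mem H a b c d s) x') = _ from
        tB_pi H a b c d s x']
    rw [h1, ← Cen.smul_def (κ * κ), mul_smul, tB_smul]
    simp only [smul_mul_assoc, mul_smul_comm, smul_sub]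
  rw [e]
  exact Set.mul_mem_center (κ * κ).2 (toLB_mem_center _ (H.cn _ _ _ _ _))

theorem cen_mul {z w : A} (hz : z ∈ Set.center A) (hw : w ∈ Set.center A) :
    cen (F := F) (cc_mem H a b c d s) (Set.mul_mem_center hz hw) =
      cen (F := F) (cc_mem H a b c d s) hz * cen (F := F) (cc_mem H a b c d s) hw := by
  ext
  exact map_mul _ _ _

theorem units : IsUnit (dK (F := F) H a b c d s) ∧
    IsUnit (cen (F := F) (cc_mem H a b c d s) (H.ct a b c d (com a b * com c d))) ∧
    IsUnit (cen (F := F) (cc_mem H a b c d s) (H.cn a b c d (com a b))) ∧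
    IsUnit (cen (F := F) (cc_mem H a b c d s)
      (H.cn a b c d (associator (com a b) (com c d) s))) := by
  have h := isUnit_cen (F := F) (cc_mem H a b c d s)
  have e : cen (F := F) (cc_mem H a b c d s) (cc_mem H a b c d s) =
      dK (F := F) H a b c d s *
      (cen (F := F) (cc_mem H a b c d s) (H.ct a b c d (com a b * com c d)) *
        (cen (F := F) (cc_mem H a b c d s) (H.cn a b c d (com a b)) *
          cen (F := F) (cc_mem H a b c d s)
            (H.cn a b c d (associator (com a b) (com c d) s)))) := by
    rw [← cen_mul H, ← cen_mul H]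
    exact cen_mul H a b c d s (H.cd a b c d) _
  rw [e] at h
  have h1 := isUnit_of_mul_isUnit_left h
  have h2 := isUnit_of_mul_isUnit_right h
  have h3 := isUnit_of_mul_isUnit_left h2
  have h4 := isUnit_of_mul_isUnit_right h2
  exact ⟨h1, h3, isUnit_of_mul_isUnit_left h4, isUnit_of_mul_isUnit_right h4⟩

/-- the inverse of `δ` -/
noncomputable def di : Cen (BB F H a b c d s) := ↑((units (F := F) H a b c d s).1.unit⁻¹)

theorem di_mul : di (F := F) H a b c d s * dK (F := F) H a b c d s = 1 :=
  IsUnit.val_inv_mul _

theorem di_unit : IsUnit (di (F := F) H a b c d s) := Units.isUnit _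

/-- the trace -/
noncomputable def tK : BB F H a b c d s →ₗ[Cen (BB F H a b c d s)] Cen (BB F H a b c d s) where
  toFun x := di (F := F) H a b c d s * ⟨tB H a b c d s x, tB_mem H a b c d s x⟩
  map_add' x y := by
    rw [← mul_add]
    congr 1
    ext
    exact tB_add H a b c d s x y
  map_smul' κ x := by
    rw [RingHom.id_apply, smul_eq_mul, mul_left_comm]
    congr 1
    ext
    exact tB_smul H a b c d s κ x

theorem tK_apply (x : BB F H a b c d s) : tK (F := F) H a b c d s x =
    di (F := F) H a b c d s * ⟨tB H a b c d s x, tB_mem H a b c d s x⟩ := rfl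

/-- the norm -/
noncomputable def nK (x : BB F H a b c d s) : Cen (BB F H a b c d s) :=
  di (F := F) H a b c d s * ⟨_, nB_mem H a b c d s x⟩

theorem quad : Quad (tK (F := F) H a b c d s) (nK (F := F) H a b c d s) where
  alt := BB_alt H a b c d s
  sq x := by
    rw [tK_apply, nK, mul_smul, mul_smul, ← smul_sub, Cen.smul_one', Cen.smul_def _ x]
    simp only
    rw [sub_sub_cancel, ← Cen.smul_def (dK (F := F) H a b c d s), smul_smul, di_mul, one_smul]
  one := by
    rw [tK_apply]
    have e : (⟨tB H a b c d s 1, tB_mem H a b c d s 1⟩ : Cen (BB F H a b c d s)) =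
        dK (F := F) H a b c d s * 2 := by
      ext
      rw [mul_two, Cen.add_val, dK_val]
      simp only [tB, tau, dd, dc, com, one_mul, mul_one, add_mul, mul_add, sub_mul, mul_sub]
      abel
    rw [e, ← mul_assoc, di_mul, one_mul]
  reg := by
    refine ⟨pi (F := F) H a b c d s (com a b), pi (F := F) H a b c d s (com c d), fun κ hκ => ?_⟩
    have h1 : κ • (dK (F := F) H a b c d s).val = 0 := by
      rw [dK_val, dd, dc, ← map_com, ← map_com, ← smul_mul_assoc]
      have : κ • com ((pi (F := F) H a b c d s) (com a b)) ((pi (F := F) H a b c d s) (com c d)) =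
          0 := hκ
      rw [this, zero_mul]
    have h2 : κ * dK (F := F) H a b c d s = 0 := by
      ext
      exact h1
    have h3 : κ = κ * dK (F := F) H a b c d s * di (F := F) H a b c d s := by
      rw [mul_assoc, mul_comm (dK (F := F) H a b c d s), di_mul, mul_one]
    rw [h3, h2, zero_mul]

end main

end Pool.Agent.H.MP_41922c_al
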