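import Pool.Agent.H.MP_41922c_al.Alt
import Pool.Agent.H.MP_41922c_al.Defs

/-!
# Identities of the octonion algebras
-/

set_option autoImplicit false
set_option linter.unusedSectionVars false

namespace Pool.Agent.H.MP_41922c_al

namespace Oct

variable {K : Type*} [CommRing K] {ν β γ : K}

/-- the trace -/
def tr (x : Oct K ν β γ) : K := 2 * x.1.1.1 + x.1.1.2

/-- the norm of `E` -/
def nE (ν : K) (x : QE K ν) : K := x.1 ^ 2 + x.1 * x.2 + ν * x.2 ^ 2

/-- the norm -/
def nm (x : Oct K ν β γ) : K :=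
  nE ν x.1.1 - β * nE ν x.1.2 - γ * (nE ν x.2.1 - β * nE ν x.2.2)

/-- the unit -/
def e : Oct K ν β γ := (((1, 0), 0), 0)

@[simp] theorem e_1 : (e : Oct K ν β γ).1.1.1 = 1 := rfl
@[simp] theorem e_2 : (e : Oct K ν β γ).1.1.2 = 0 := rfl
@[simp] theorem e_3 : (e : Oct K ν β γ).1.2 = 0 := rfl
@[simp] theorem e_4 : (e : Oct K ν β γ).2 = 0 := rfl

theorem e_mul (x : Oct K ν β γ) : e * x = x := by
  ext <;> simp

theorem mul_e (x : Oct K ν β γ) : x * e = x := by
  ext <;> simp

theorem tr_add (x y : Oct K ν β γ) : tr (x + y) = tr x + tr y := by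
  simp [tr]; ring

theorem tr_sub (x y : Oct K ν β γ) : tr (x - y) = tr x - tr y := by
  simp [tr]; ring

theorem tr_smul (k : K) (x : Oct K ν β γ) : tr (k • x) = k * tr x := by
  simp [tr]; ring

theorem tr_e : tr (e : Oct K ν β γ) = 2 := by
  simp [tr]

theorem tr_comm (x y : Oct K ν β γ) : tr (x * y) = tr (y * x) := by
  simp [tr]; ring

theorem sq (x : Oct K ν β γ) : x * x = tr x • x - nm x • e := by
  ext <;> simp [tr, nm, nE] <;> ring

theorem circ (x y : Oct K ν β γ) :
    x * y + y * x = tr x • y + tr y • x - (tr x * tr y - tr (x * y)) • e := by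
  ext <;> simp [tr] <;> ring

theorem tr_assoc (x y z : Oct K ν β γ) : tr ((x * y) * z) = tr (x * (y * z)) := by
  simp [tr]; ring

theorem isAlt : IsAlt (Oct K ν β γ) where
  left x y := by
    rw [associator]
    ext <;> simp <;> ring
  right x y := by
    rw [associator]
    ext <;> simp <;> ring

end Oct

end Pool.Agent.H.MP_41922c_al
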