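import Pool.Agent.H.MP_41922c_al.Main
import Pool.Agent.H.MP_41922c_al.OctId
import Pool.Agent.H.MP_41922c_al.Generic

/-!
# The finite set of identities holds in the octonion algebras; the central polynomial
-/

set_option autoImplicit false
set_option linter.unusedSectionVars false

namespace Pool.Agent.H.MP_41922c_al

open FreeNonUnitalNonAssocAlgebra

namespace Oct

variable {K : Type*} [CommRing K] {ν β γ : K}

theorem smul_mul' (k : K) (x y : Oct K ν β γ) : (k • x) * y = k • (x * y) := smul_mul_assoc k x y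

theorem mul_smul' (k : K) (x y : Oct K ν β γ) : x * (k • y) = k • (x * y) := mul_smul_comm k x y

theorem tr_com (x y : Oct K ν β γ) : tr (com x y) = 0 := by
  rw [com, tr_sub, tr_comm, sub_self]

/-- `u ∘ x = tr(x) u + tr(x u)` for traceless `u` -/
theorem com_circ (x u v : Oct K ν β γ) (hu : tr u = 0) :
    com (x * u + u * x) v = tr x • com u v := by
  rw [circ, hu, zero_smul, add_zero]
  simp only [com, sub_mul, mul_sub, smul_mul', mul_smul', e_mul, mul_e, smul_sub]
  abel

theorem dc_sq (a b c d : Oct K ν β γ) : dd a b c d = (-nm (dc a b c d)) • e := by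
  rw [dd, sq, dc, tr_com, zero_smul, zero_sub, neg_smul]

theorem tau_eq (a b c d x : Oct K ν β γ) : tau a b c d x = tr x • dd a b c d := by
  rw [tau, com_circ _ _ _ (tr_com a b), smul_mul', dd, dc]

theorem nn_eq (a b c d x : Oct K ν β γ) : nn a b c d x = nm x • dd a b c d := by
  rw [nn, tau_eq, smul_mul', sq x, dc_sq, smul_mul', smul_mul', e_mul, e_mul]
  module

theorem smul_e_mul_smul_e (k l : K) : (k • (e : Oct K ν β γ)) * (l • e) = (k * l) • e := by
  rw [smul_mul', mul_smul', e_mul, smul_smul]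

/-- the value of the central polynomial -/
theorem cc_eq (a b c d s : Oct K ν β γ) : cc a b c d s =
    ((nm (dc a b c d)) ^ 4 * tr (com a b * com c d) * nm (com a b) *
      nm (associator (com a b) (com c d) s)) • e := by
  rw [cc, tau_eq, nn_eq, nn_eq, dc_sq, smul_smul, smul_smul, smul_smul, smul_e_mul_smul_e,
    smul_e_mul_smul_e, smul_e_mul_smul_e]
  congr 1
  ring

theorem com_smul_e (k : K) (x : Oct K ν β γ) : com (k • e) x = 0 := by
  rw [com, smul_mul', mul_smul', e_mul, mul_e, sub_self]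

theorem assoc_smul_e (k : K) (x y : Oct K ν β γ) : associator (k • e) x y = 0 := by
  rw [associator, smul_mul', smul_mul', smul_mul', e_mul, e_mul, sub_self]

theorem S0_identity {F : Type*} [CommRing F] [Algebra F K] {f : FreeNonUnitalNonAssocAlgebra F ℕ}
    (hf : f ∈ S0 F) : IsIdentity F (Oct K ν β γ) f := by
  intro φ
  simp only [S0, Set.mem_insert_iff, Set.mem_singleton_iff] at hf
  rcases hf with rfl | rfl | rfl | rfl | rfl | rfl | rfl | rfl
  · rw [map_associator]; exact isAlt.left _ _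
  · rw [map_associator]; exact isAlt.right _ _
  · rw [map_com, map_dd, dc_sq, com_smul_e]
  · rw [map_associator, map_dd, dc_sq, assoc_smul_e]
  · rw [map_com, map_tau, tau_eq, dc_sq, smul_smul, com_smul_e]
  · rw [map_associator, map_tau, tau_eq, dc_sq, smul_smul, assoc_smul_e]
  · rw [map_com, map_nn, nn_eq, dc_sq, smul_smul, com_smul_e]
  · rw [map_associator, map_nn, nn_eq, dc_sq, smul_smul, assoc_smul_e]

/-! ### a non-zero value -/

section value

/-- `w` -/
def ew : Oct K ν β γ := mk 0 1 0 0 0 0 0 0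
/-- `j` -/
def ej : Oct K ν β γ := mk 0 0 1 0 0 0 0 0
/-- `w j` -/
def ewj : Oct K ν β γ := mk 0 0 0 1 0 0 0 0
/-- `l` -/
def el : Oct K ν β γ := mk 0 0 0 0 1 0 0 0

theorem com_w_j : com (ew : Oct K ν β γ) ej = mk 0 0 (-1) 2 0 0 0 0 := by
  refine ext8 ?_ ?_ ?_ ?_ ?_ ?_ ?_ ?_ <;> simp [com, ew, ej] <;> ring

theorem com_w_wj : com (ew : Oct K ν β γ) ewj = mk 0 0 (-2 * ν) 1 0 0 0 0 := by
  refine ext8 ?_ ?_ ?_ ?_ ?_ ?_ ?_ ?_ <;> simp [com, ew, ewj] <;> ring

theorem dc_value : dc (ew : Oct K ν β γ) ej ew ewj =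
    mk (-β * (1 - 4 * ν)) (2 * β * (1 - 4 * ν)) 0 0 0 0 0 0 := by
  rw [dc, com_w_j, com_w_wj]
  refine ext8 ?_ ?_ ?_ ?_ ?_ ?_ ?_ ?_ <;> simp [com] <;> ring

theorem assoc_value : associator (com (ew : Oct K ν β γ) ej) (com ew ewj) el =
    mk 0 0 0 0 (-β * (1 - 4 * ν)) (2 * β * (1 - 4 * ν)) 0 0 := by
  rw [com_w_j, com_w_wj, associator]
  refine ext8 ?_ ?_ ?_ ?_ ?_ ?_ ?_ ?_ <;> simp [el] <;> ring

theorem cc_value : cc (ew : Oct K ν β γ) ej ew ewj el =
    (-(β ^ 12 * (1 - 4 * ν) ^ 17 * γ)) • e := by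
  rw [cc_eq, dc_value, assoc_value, com_w_j, com_w_wj]
  congr 1
  simp [nm, nE, tr]
  ring

end value

end Oct

end Pool.Agent.H.MP_41922c_al
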