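import Pool.Agent.H.MP_41922c_al.Alt

/-!
# Quadratic alternative algebras over a commutative ring
-/

set_option autoImplicit false
set_option linter.unusedSectionVars false

namespace Pool.Agent.H.MP_41922c_al

section

variable {K B : Type*} [CommRing K] [NonAssocRing B] [Module K B] [IsScalarTower K B B]
  [SMulCommClass K B B]

/-- `B` is alternative, `x² = t(x) x - n(x)` for a linear form `t`, and some commutator is
regular for `K`. -/
structure Quad (t : B →ₗ[K] K) (n : B → K) : Prop where
  alt : IsAlt B
  sq : ∀ x, x * x = t x • x - n x • (1 : B)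
  one : t 1 = 2
  reg : ∃ u v : B, ∀ k : K, k • (u * v - v * u) = 0 → k = 0

namespace Quad

variable {t : B →ₗ[K] K} {n : B → K} (H : Quad t n)

include H

theorem inj {k : K} (h : k • (1 : B) = 0) : k = 0 := by
  obtain ⟨u, v, huv⟩ := H.reg
  refine huv k ?_
  have : k • (u * v - v * u) = (k • (1 : B)) * (u * v - v * u) := by
    rw [smul_mul_assoc, one_mul]
  rw [this, h, zero_mul]

theorem inj' {k l : K} (h : k • (1 : B) = l • (1 : B)) : k = l := by
  rw [← sub_eq_zero]
  refine H.inj ?_
  rw [sub_smul, h, sub_self]

/-- the polar form -/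
def b (_ : Quad t n) (x y : B) : K := n (x + y) - n x - n y

theorem circ (x y : B) : x * y + y * x = t x • y + t y • x - H.b x y • (1 : B) := by
  have h := H.sq (x + y)
  have hx := H.sq x
  have hy := H.sq y
  have e : (x + y) * (x + y) = x * x + (x * y + y * x) + y * y := by
    simp only [mul_add, add_mul]; abel
  rw [e, hx, hy] at h
  have h2 : x * y + y * x = t (x + y) • (x + y) - n (x + y) • (1 : B) -
      (t x • x - n x • (1 : B)) - (t y • y - n y • (1 : B)) := by
    rw [← h]; abel
  rw [h2, map_add, b]
  module

theorem b_smul_one (x y : B) : H.b x y • (1 : B) = t x • y + t y • x - (x * y + y * x) := by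
  rw [H.circ x y]; abel

theorem b_comm (x y : B) : H.b x y = H.b y x := by
  rw [b, b, add_comm x y]; ring

theorem b_add (x y z : B) : H.b (x + y) z = H.b x z + H.b y z := by
  refine H.inj' ?_
  rw [add_smul, b_smul_one, b_smul_one, b_smul_one, map_add, add_mul, mul_add]
  module

theorem flex3 (x y : B) : (x * y) * x =
    (t x * t y - H.b x y) • x - (t y * n x) • (1 : B) + n x • y := by
  have h1 : (x * y) * x = x * (y * x) := H.alt.flex' x y
  have h2 : y * x = t x • y + t y • x - H.b x y • (1 : B) - x * y := by
    rw [← H.circ x y]; abel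
  have h3 : x * (x * y) = (x * x) * y := H.alt.left' x y
  rw [h1, h2, mul_sub, mul_sub, mul_add, mul_smul_comm, mul_smul_comm, mul_smul_comm, h3, mul_one,
    H.sq, sub_mul, smul_mul_assoc, smul_mul_assoc, one_mul]
  module

/-- the defect, to be shown to vanish -/
theorem defect (x y : B) : (t (x * y) - t x * t y + H.b x y) • x =
    (H.b x (x * y) - t y * n x) • (1 : B) := by
  have h1 := H.circ x (x * y)
  rw [H.alt.left' x y, H.flex3, H.sq, sub_mul, smul_mul_assoc, smul_mul_assoc, one_mul] at h1
  have h2 : t (x * y) • x - H.b x (x * y) • (1 : B) =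
      (t x • (x * y) - n x • y + ((t x * t y - H.b x y) • x - (t y * n x) • (1 : B) + n x • y)) -
      t x • (x * y) := by
    rw [h1]; abel
  have h3 : (t (x * y) - t x * t y + H.b x y) • x =
      (t (x * y) • x - H.b x (x * y) • (1 : B)) + H.b x (x * y) • (1 : B) -
      (t x * t y - H.b x y) • x := by module
  rw [h3, h2]
  module

theorem comm_of_smul {x : B} {k l : K} (h : k • x = l • (1 : B)) (w : B) :
    k • (x * w - w * x) = 0 := by
  have h1 : k • (x * w) = (k • x) * w := (smul_mul_assoc _ _ _).symm
  have h2 : k • (w * x) = w * (k • x) := (mul_smul_comm _ _ _).symm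
  rw [smul_sub, h1, h2, h, smul_mul_assoc, mul_smul_comm, one_mul, mul_one, sub_self]

theorem t_mul (x y : B) : t (x * y) = t x * t y - H.b x y := by
  obtain ⟨u, v, huv⟩ := H.reg
  have h1 := fun x => H.comm_of_smul (H.defect x y) v
  have hu : t (u * y) - t u * t y + H.b u y = 0 := huv _ (h1 u)
  have hx : t (x * y) - t x * t y + H.b x y = 0 := by
    refine huv _ ?_
    have h2 := h1 (x + u)
    have e : t ((x + u) * y) - t (x + u) * t y + H.b (x + u) y =
        (t (x * y) - t x * t y + H.b x y) + (t (u * y) - t u * t y + H.b u y) := by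
      rw [add_mul, map_add, map_add, H.b_add]; ring
    rw [e, hu, add_zero] at h2
    have h3 := h1 x
    have e2 : (x + u) * v - v * (x + u) = (x * v - v * x) + (u * v - v * u) := by
      rw [add_mul, mul_add]; abel
    rw [e2, smul_add, h3, zero_add] at h2
    exact h2
  linear_combination hx

theorem t_comm (x y : B) : t (x * y) = t (y * x) := by
  rw [H.t_mul, H.t_mul, H.b_comm x y]; ring

theorem b_eq (x y : B) : H.b x y = t x * t y - t (x * y) := by
  rw [H.t_mul]; ring

theorem circ' (x y : B) :
    x * y + y * x = t x • y + t y • x - (t x * t y - t (x * y)) • (1 : B) := by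
  rw [H.circ, H.b_eq]

theorem t_associator (x y z : B) : t (associator x y z) = 0 := by
  obtain ⟨u, v, huv⟩ := H.reg
  have key : ∀ x : B, t (associator x y z) • (x * v - v * x) = 0 := by
    intro x
    have h1 := H.alt.assoc_sq x y z
    have h2 : associator (x * x) y z = t x • associator x y z := by
      rw [H.sq, assoc_sub₁]
      have e1 : associator (t x • x) y z = t x • associator x y z := by
        simp only [associator, smul_mul_assoc, smul_sub]
      have e2 : associator (n x • (1 : B)) y z = 0 := by
        simp only [associator, smul_mul_assoc, one_mul, sub_self]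
      rw [e1, e2, sub_zero]
    rw [h2, H.circ' x (associator x y z)] at h1
    have h3 : t (associator x y z) • x =
        (t x * t (associator x y z) - t (x * associator x y z)) • (1 : B) := by
      have h4 : t (associator x y z) • x =
          (t x • associator x y z + t (associator x y z) • x -
            (t x * t (associator x y z) - t (x * associator x y z)) • (1 : B)) -
          t x • associator x y z +
          (t x * t (associator x y z) - t (x * associator x y z)) • (1 : B) := by abel
      rw [h4, ← h1]; abel
    exact H.comm_of_smul h3 v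
  have hu : t (associator u y z) = 0 := huv _ (key u)
  refine huv _ ?_
  have h2 := key (x + u)
  rw [assoc_add₁, map_add, hu, add_zero] at h2
  have e2 : (x + u) * v - v * (x + u) = (x * v - v * x) + (u * v - v * u) := by
    rw [add_mul, mul_add]; abel
  rw [e2, smul_add, key x, zero_add] at h2
  exact h2

theorem t_assoc (x y z : B) : t ((x * y) * z) = t (x * (y * z)) := by
  have := H.t_associator x y z
  rw [associator, map_sub, sub_eq_zero] at this
  exact this

/-! ### conjugation -/

omit H in
/-- the conjugation -/
def conj (t : B →ₗ[K] K) (x : B) : B := t x • (1 : B) - x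

omit [IsScalarTower K B B] [SMulCommClass K B B] H in
theorem conj_add (x y : B) : conj t (x + y) = conj t x + conj t y := by
  rw [conj, conj, conj, map_add]; module

omit [IsScalarTower K B B] [SMulCommClass K B B] H in
theorem conj_sub (x y : B) : conj t (x - y) = conj t x - conj t y := by
  rw [conj, conj, conj, map_sub]; module

theorem t_conj (x : B) : t (conj t x) = t x := by
  rw [conj, map_sub, map_smul, H.one, smul_eq_mul]; ring

theorem conj_conj (x : B) : conj t (conj t x) = x := by
  rw [conj, H.t_conj, conj]; abel

theorem mul_conj (x : B) : x * conj t x = n x • (1 : B) := by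
  rw [conj, mul_sub, mul_smul_comm, mul_one, H.sq]; abel

theorem conj_mul_self (x : B) : conj t x * x = n x • (1 : B) := by
  rw [conj, sub_mul, smul_mul_assoc, one_mul, H.sq]; abel

theorem conj_mul (x y : B) : conj t (x * y) = conj t y * conj t x := by
  have h := H.circ' x y
  have h2 : y * x = t x • y + t y • x - (t x * t y - t (x * y)) • (1 : B) - x * y := by
    rw [← h]; abel
  simp only [conj, sub_mul, mul_sub, smul_mul_assoc, one_mul, mul_smul_comm, mul_one]
  rw [h2]
  module

theorem conj_mul_left (x y : B) : conj t x * (x * y) = n x • y := by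
  rw [conj, sub_mul, smul_mul_assoc, one_mul, H.alt.left', H.sq, sub_mul, smul_mul_assoc,
    smul_mul_assoc, one_mul]
  module

theorem mul_conj_right (x y : B) : (y * x) * conj t x = n x • y := by
  rw [conj, mul_sub, mul_smul_comm, mul_one, H.alt.right', H.sq, mul_sub, mul_smul_comm,
    mul_smul_comm, mul_one]
  module

theorem conj_left_lin (x y z : B) :
    conj t x * (y * z) + conj t y * (x * z) = H.b x y • z := by
  have h := H.conj_mul_left (x + y) z
  rw [conj_add, add_mul, add_mul, mul_add, mul_add, H.conj_mul_left, H.conj_mul_left] at h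
  have h2 : conj t x * (y * z) + conj t y * (x * z) =
      n x • z + conj t x * (y * z) + (conj t y * (x * z) + n y • z) - n x • z - n y • z := by
    abel
  rw [h2, h, b]
  module

theorem conj_right_lin (x y z : B) :
    (z * x) * conj t y + (z * y) * conj t x = H.b x y • z := by
  have h := H.mul_conj_right (x + y) z
  rw [conj_add, mul_add, mul_add, add_mul, add_mul, H.mul_conj_right, H.mul_conj_right] at h
  have h2 : (z * x) * conj t y + (z * y) * conj t x =
      n x • z + (z * y) * conj t x + ((z * x) * conj t y + n y • z) - n x • z - n y • z := by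
    abel
  rw [h2, h, b]
  module

/-! ### the doubling lemma -/

section dbl

variable {l : B} (hl : t l = 0)

include hl

theorem conj_l : conj t l = -l := by
  rw [conj, hl, zero_smul, zero_sub]

theorem l_sq : l * l = -(n l • (1 : B)) := by
  rw [H.sq, hl, zero_smul, zero_sub]

/-- (i) -/
theorem l_mul {a : B} (ha : t (a * l) = 0) : l * a = conj t a * l := by
  have h := H.circ' a l
  rw [hl, ha] at h
  have h2 : l * a = (t a • l + (0 : K) • a - (t a * 0 - 0) • (1 : B)) - a * l := by
    rw [← h]; abel
  rw [h2, conj, sub_mul, smul_mul_assoc, one_mul]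
  simp

theorem t_conj_l {a : B} (ha : t (a * l) = 0) : t (conj t a * l) = 0 := by
  rw [conj, sub_mul, smul_mul_assoc, one_mul, map_sub, map_smul, hl, ha]; simp

theorem mul_l_conj {a : B} (ha : t (a * l) = 0) : a * l = l * conj t a := by
  rw [H.l_mul hl (H.t_conj_l hl ha), H.conj_conj]

/-- `a (l b) = l (ā b)` -/
theorem mul_l_mul {a : B} (ha : t (a * l) = 0) (b : B) : a * (l * b) = l * (conj t a * b) := by
  have h := H.conj_left_lin (conj t a) l b
  have e : H.b (conj t a) l = 0 := by
    rw [H.b_eq, hl, H.t_conj_l hl ha]; ring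
  rw [H.conj_conj, H.conj_l hl, e, zero_smul, neg_mul] at h
  exact eq_of_sub_eq_zero (by rw [sub_eq_add_neg]; exact h)

/-- (ii) -/
theorem mul_mul_l {a b : B} (ha : t (a * l) = 0) (hb : t (b * l) = 0)
    (hba : t ((b * a) * l) = 0) : a * (b * l) = (b * a) * l := by
  rw [H.mul_l_conj hl hb, H.mul_l_mul hl ha, ← H.conj_mul, ← H.mul_l_conj hl hba]

/-- (iii) -/
theorem mul_l_mul' {b : B} (hb : t (b * l) = 0) (a : B) : (a * l) * b = (a * conj t b) * l := by
  have h := H.conj_right_lin l (conj t b) a
  have e : H.b l (conj t b) = 0 := by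
    rw [H.b_comm, H.b_eq, hl, H.t_conj_l hl hb]; ring
  rw [H.conj_conj, H.conj_l hl, e, zero_smul, mul_neg] at h
  exact eq_of_sub_eq_zero (by rw [sub_eq_add_neg]; exact h)

/-- (iv) -/
theorem mul_l_mul_l {a b : B} (ha : t (a * l) = 0) (hab : t ((conj t a * b) * l) = 0) :
    (a * l) * (b * l) = -(n l • (conj t b * a)) := by
  have e1 : a * l = l * conj t a := H.mul_l_conj hl ha
  have e2 : (l * conj t a) * (b * l) = l * ((conj t a * b) * l) := H.alt.moufang _ _ _
  have e3 : (conj t a * b) * l = l * conj t (conj t a * b) := H.mul_l_conj hl hab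
  rw [e1, e2, e3, H.alt.left', H.l_sq hl, H.conj_mul, H.conj_conj, neg_mul, smul_mul_assoc,
    one_mul]

/-- The doubling lemma. -/
theorem dbl {a b c d : B} (hb : t (b * l) = 0) (hc : t (c * l) = 0) (ha : t (a * l) = 0)
    (hd : t (d * l) = 0) (hda : t ((d * a) * l) = 0) (hbd : t ((conj t b * d) * l) = 0) :
    (a + b * l) * (c + d * l) = (a * c - n l • (conj t d * b)) + (d * a + b * conj t c) * l := by
  rw [add_mul, mul_add, mul_add, H.mul_mul_l hl ha hd hda, H.mul_l_mul' hl hc,
    H.mul_l_mul_l hl hb hbd, add_mul]
  abel

theorem conj_dbl {a b : B} (hb : t (b * l) = 0) : conj t (a + b * l) = conj t a - b * l := by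
  rw [conj_add, conj, conj, hb, zero_smul]; abel

end dbl

end Quad

end

end Pool.Agent.H.MP_41922c_al
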