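import Mathlib

/-!
# Octonion algebras, identities, T-ideals, the finite set of identities, the central polynomial
-/

set_option autoImplicit false

namespace Pool.Agent.H.MP_41922c_al

open FreeNonUnitalNonAssocAlgebra Quaternion

/-- The octonion algebra `Q + Q l` obtained by the Cayley-Dickson process, with `l² = γ`, from the
quaternion algebra `Q = K + K i + K j + K k`, `i² = i - ν`, `j² = β`, `k = i j = j (1 - i)`.
The pair `(p, q)` is `p + q l`. -/
def CD (K : Type*) [CommRing K] (ν β _γ : K) : Type _ := ℍ[K,-ν,1,β] × ℍ[K,-ν,1,β]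

namespace CD

variable {K : Type*} [CommRing K] {ν β γ : K}

instance : AddCommGroup (CD K ν β γ) :=
  (inferInstance : AddCommGroup (ℍ[K,-ν,1,β] × ℍ[K,-ν,1,β]))

instance {R : Type*} [Semiring R] [Module R K] : Module R (CD K ν β γ) :=
  (inferInstance : Module R (ℍ[K,-ν,1,β] × ℍ[K,-ν,1,β]))

/-- `(p + q l) (r + s l) = p r + γ s̄ q + (s p + q r̄) l` -/
instance : Mul (CD K ν β γ) :=
  ⟨fun x y => (x.1 * y.1 + γ • (star y.2 * x.2), y.2 * x.1 + x.2 * star y.1)⟩

theorem add_fst (x y : CD K ν β γ) : (x + y).1 = x.1 + y.1 := rfl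
theorem add_snd (x y : CD K ν β γ) : (x + y).2 = x.2 + y.2 := rfl
theorem mul_fst (x y : CD K ν β γ) : (x * y).1 = x.1 * y.1 + γ • (star y.2 * x.2) := rfl
theorem mul_snd (x y : CD K ν β γ) : (x * y).2 = y.2 * x.1 + x.2 * star y.1 := rfl
theorem zero_fst : (0 : CD K ν β γ).1 = 0 := rfl
theorem zero_snd : (0 : CD K ν β γ).2 = 0 := rfl

instance : NonUnitalNonAssocRing (CD K ν β γ) where
  left_distrib x y z := by
    refine Prod.ext ?_ ?_
    · simp only [mul_fst, add_fst, add_snd, mul_add, star_add, add_mul, smul_add]; abel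
    · simp only [mul_snd, add_fst, add_snd, mul_add, star_add, add_mul]; abel
  right_distrib x y z := by
    refine Prod.ext ?_ ?_
    · simp only [mul_fst, add_fst, add_snd, mul_add, add_mul, smul_add]; abel
    · simp only [mul_snd, add_fst, add_snd, mul_add, add_mul]; abel
  zero_mul x := by
    refine Prod.ext ?_ ?_
    · simp only [mul_fst, zero_fst, zero_snd, mul_zero, zero_mul, smul_zero, add_zero]
    · simp only [mul_snd, zero_fst, zero_snd, mul_zero, zero_mul, add_zero]
  mul_zero x := by
    refine Prod.ext ?_ ?_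
    · simp only [mul_fst, zero_fst, zero_snd, mul_zero, zero_mul, smul_zero, add_zero, star_zero]
    · simp only [mul_snd, zero_fst, zero_snd, mul_zero, zero_mul, add_zero, star_zero]

end CD

/-- `f` is an identity of the `F`-algebra `A`: it is killed by every homomorphism of `F{X}` to `A`,
that is, it vanishes under every substitution of elements of `A` for the variables. -/
def IsIdentity (F : Type*) [CommSemiring F] (A : Type*) [NonUnitalNonAssocRing A] [Module F A]
    (f : FreeNonUnitalNonAssocAlgebra F ℕ) : Prop :=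
  ∀ φ : FreeNonUnitalNonAssocAlgebra F ℕ →ₙₐ[F] A, φ f = 0

section

variable {A : Type*} [NonUnitalNonAssocRing A]

/-- the commutator `[a, b]` -/
def com (a b : A) : A := a * b - b * a

/-- `[[a, b], [c, d]]` -/
def dc (a b c d : A) : A := com (com a b) (com c d)

/-- `δ = [[a, b], [c, d]]²` -/
def dd (a b c d : A) : A := dc a b c d * dc a b c d

/-- `τ(x) = [x ∘ [a, b], [c, d]] [[a, b], [c, d]]` -/
def tau (a b c d x : A) : A := com (x * com a b + com a b * x) (com c d) * dc a b c d

/-- `ν(x) = τ(x) x - δ x²` -/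
def nn (a b c d x : A) : A := tau a b c d x * x - dd a b c d * (x * x)

/-- The central polynomial `δ (τ(u v) (ν(u) ν((u, v, s))))`, `u = [a, b]`, `v = [c, d]`. -/
def cc (a b c d s : A) : A :=
  dd a b c d * (tau a b c d (com a b * com c d) *
    (nn a b c d (com a b) * nn a b c d (associator (com a b) (com c d) s)))

end

/-- The finite set of identities: the alternative laws and the centrality of the three polynomials
`δ`, `τ(x)`, `ν(x)`. -/
def S0 (F : Type*) [CommRing F] : Set (FreeNonUnitalNonAssocAlgebra F ℕ) :=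
  let x : ℕ → FreeNonUnitalNonAssocAlgebra F ℕ := of F
  let z₁ := dd (x 0) (x 1) (x 2) (x 3)
  let z₂ := tau (x 0) (x 1) (x 2) (x 3) (x 4)
  let z₃ := nn (x 0) (x 1) (x 2) (x 3) (x 4)
  {associator (x 0) (x 0) (x 1), associator (x 1) (x 0) (x 0),
    com z₁ (x 5), associator z₁ (x 5) (x 6),
    com z₂ (x 5), associator z₂ (x 5) (x 6),
    com z₃ (x 5), associator z₃ (x 5) (x 6)}

/-- T-ideals: two-sided ideals of the free nonassociative algebra that are stable under all
endomorphisms. -/
structure IsTIdeal (F : Type*) [CommRing F] (I : Submodule F (FreeNonUnitalNonAssocAlgebra F ℕ)) :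
    Prop where
  mul_left : ∀ a f : FreeNonUnitalNonAssocAlgebra F ℕ, f ∈ I → a * f ∈ I
  mul_right : ∀ a f : FreeNonUnitalNonAssocAlgebra F ℕ, f ∈ I → f * a ∈ I
  map : ∀ φ : FreeNonUnitalNonAssocAlgebra F ℕ →ₙₐ[F] FreeNonUnitalNonAssocAlgebra F ℕ,
    ∀ f ∈ I, φ f ∈ I

/-- The smallest T-ideal containing `S`. -/
noncomputable def tIdeal (F : Type*) [CommRing F] (S : Set (FreeNonUnitalNonAssocAlgebra F ℕ)) :
    Submodule F (FreeNonUnitalNonAssocAlgebra F ℕ) :=
  sInf {I | IsTIdeal F I ∧ S ⊆ I}

end Pool.Agent.H.MP_41922c_al
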